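import Pool.Agent.H63.TC.Stmts

/-!
# Project TC: the behaviour of `P` at its pole (helper lemmas for HLF, ODE, POL)
-/

open Complex Metric Set Filter Topology MeasureTheory

namespace Pool.Agent.H63.TC

noncomputable section

lemma pole_even_bound {h : ℂ → ℂ} (ha : AnalyticAt ℂ h 0) (he : ∀ᶠ z in 𝓝 (0 : ℂ), h (-z) = h z) :
    ∃ r > 0, ∃ C : ℝ, ∀ z : ℂ, ‖z‖ < r → ‖h z - h 0‖ ≤ C * ‖z‖ ^ 2 := by
  have hd0 : deriv h 0 = 0 := by
    have h1 : deriv (fun z => h (-z)) 0 = -deriv h (-0) := deriv_comp_neg h 0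
    have h2 : deriv (fun z => h (-z)) 0 = deriv h 0 := EventuallyEq.deriv_eq he
    rw [neg_zero] at h1
    have h3 : deriv h 0 = -deriv h 0 := h2.symm.trans h1
    have h4 : 2 * deriv h 0 = 0 := by linear_combination h3
    simpa using h4
  obtain ⟨p, hp⟩ := ha
  have hd : DifferentiableAt ℂ (dslope h 0) 0 :=
    hp.has_fpower_series_dslope_fslope.analyticAt.differentiableAt
  have hO := hd.isBigO_sub
  rw [dslope_same, hd0] at hO
  obtain ⟨C, hC⟩ := hO.bound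
  obtain ⟨r, hr, hrC⟩ := Metric.eventually_nhds_iff.1 hC
  refine ⟨r, hr, C, fun z hz => ?_⟩
  have h1 := hrC (y := z) (by simpa using hz)
  have h2 := sub_smul_dslope h 0 z
  rw [← h2, sub_zero, smul_eq_mul, norm_mul]
  rw [sub_zero, sub_zero] at h1
  nlinarith [norm_nonneg z]

/-- `π²/sin²(πz) - 1/z²` is bounded near `0` -/
lemma pole_sin : ∃ r > 0, ∃ C : ℝ, ∀ z : ℂ, z ≠ 0 → ‖z‖ < r →
    Complex.sin (Real.pi * z) ≠ 0 ∧
    ‖(Real.pi : ℂ) ^ 2 / (Complex.sin (Real.pi * z)) ^ 2 - 1 / z ^ 2‖ ≤ C := by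
  have hpi : (Real.pi : ℂ) ≠ 0 := by exact_mod_cast Real.pi_ne_zero
  -- φ(z) = sin(πz)/z
  set s : ℂ → ℂ := fun z => Complex.sin (Real.pi * z) with hs
  have hsa : AnalyticAt ℂ s 0 := by
    have : Differentiable ℂ s := by fun_prop
    exact this.analyticAt 0
  have hs0 : s 0 = 0 := by simp [hs]
  have hds : deriv s 0 = Real.pi := by
    have h1 : HasDerivAt s (Complex.cos (Real.pi * 0) * (Real.pi * 1)) 0 := by
      have h2 : HasDerivAt (fun z : ℂ => (Real.pi : ℂ) * z) (Real.pi * 1) 0 :=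
        (hasDerivAt_id (0 : ℂ)).const_mul _
      exact h2.csin
    have := h1.deriv
    simpa using this
  obtain ⟨p, hp⟩ := hsa
  have hφa : AnalyticAt ℂ (dslope s 0) 0 := hp.has_fpower_series_dslope_fslope.analyticAt
  have hφ0 : dslope s 0 0 = Real.pi := by rw [dslope_same, hds]
  have hφ : ∀ z, z ≠ 0 → dslope s 0 z = s z / z := by
    intro z hz
    rw [dslope_of_ne _ hz, slope_def_field, hs0]
    simp
  -- ψ = π²/φ²
  set ψ : ℂ → ℂ := fun z => (Real.pi : ℂ) ^ 2 * ((dslope s 0 z) ^ 2)⁻¹ with hψ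
  have hψa : AnalyticAt ℂ ψ 0 := by
    apply analyticAt_const.mul
    apply (hφa.pow 2).inv
    rw [Pi.pow_apply, hφ0]
    exact pow_ne_zero 2 hpi
  have hψ0 : ψ 0 = 1 := by
    simp only [hψ, hφ0]
    field_simp
  have hψe : ∀ᶠ z in 𝓝 (0 : ℂ), ψ (-z) = ψ z := by
    refine Eventually.of_forall (fun z => ?_)
    by_cases hz : z = 0
    · simp [hz]
    · simp only [hψ]
      rw [hφ z hz, hφ (-z) (neg_ne_zero.2 hz)]
      have : s (-z) = - s z := by simp [hs]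
      rw [this, neg_div_neg_eq]
  obtain ⟨r₁, hr₁, C, hC⟩ := pole_even_bound hψa hψe
  have hne : ∀ᶠ z in 𝓝 (0 : ℂ), dslope s 0 z ≠ 0 := by
    apply hφa.continuousAt.eventually_ne
    rw [hφ0]; exact hpi
  obtain ⟨r₂, hr₂, h2⟩ := Metric.eventually_nhds_iff.1 hne
  refine ⟨min r₁ r₂, lt_min hr₁ hr₂, C, fun z hz0 hz => ?_⟩
  have h3 := hC z (hz.trans_le (min_le_left _ _))
  have h4 := h2 (y := z) (by simpa using hz.trans_le (min_le_right _ _))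
  rw [hφ z hz0] at h4
  have h5 : s z ≠ 0 := by
    intro h; rw [h, zero_div] at h4; exact h4 rfl
  refine ⟨h5, ?_⟩
  have h6 : (Real.pi : ℂ) ^ 2 / (Complex.sin (Real.pi * z)) ^ 2 - 1 / z ^ 2 =
      (ψ z - ψ 0) / z ^ 2 := by
    rw [hψ0]
    simp only [hψ]
    rw [hφ z hz0]
    have h7 : Complex.sin (Real.pi * z) = s z := rfl
    rw [h7]
    field_simp
  rw [h6, norm_div, norm_pow, div_le_iff₀ (by positivity)]
  exact h3

/-- `P = 1/z² + O(1)` at the pole -/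
lemma pole_P (hR : PrgStmt) {τ : ℂ} (hτ : 0 < τ.im) : ∃ r > 0, ∃ C : ℝ, ∀ z : ℂ, z ≠ 0 → ‖z‖ < r →
    ‖P τ z - 1 / z ^ 2‖ ≤ C := by
  obtain ⟨r₁, hr₁, C₁, h1⟩ := pole_sin
  have hopen : IsOpen {q : ℂ × ℂ | 0 < q.1.im ∧ |q.2.im| < q.1.im} := by
    refine IsOpen.inter ?_ ?_
    · exact isOpen_lt continuous_const (Complex.continuous_im.comp continuous_fst)
    · exact isOpen_lt (continuous_abs.comp (Complex.continuous_im.comp continuous_snd))
        (Complex.continuous_im.comp continuous_fst)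
  have h2 : ContinuousAt (fun q : ℂ × ℂ => P q.1 q.2 -
      (Real.pi : ℂ) ^ 2 / (Complex.sin (Real.pi * q.2)) ^ 2) (τ, 0) :=
    hR.continuousOn.continuousAt (hopen.mem_nhds (by simp [hτ]))
  have h3 : ContinuousAt (fun z : ℂ => P τ z -
      (Real.pi : ℂ) ^ 2 / (Complex.sin (Real.pi * z)) ^ 2) 0 :=
    ContinuousAt.comp (f := fun z : ℂ => (τ, z)) (g := fun q : ℂ × ℂ => P q.1 q.2 -
      (Real.pi : ℂ) ^ 2 / (Complex.sin (Real.pi * q.2)) ^ 2) h2 (by fun_prop)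
  have h4 := h3.norm.eventually_lt_const (u := ‖P τ 0 -
      (Real.pi : ℂ) ^ 2 / (Complex.sin (Real.pi * 0)) ^ 2‖ + 1) (lt_add_one _)
  obtain ⟨r₂, hr₂, h5⟩ := Metric.eventually_nhds_iff.1 h4
  refine ⟨min r₁ r₂, lt_min hr₁ hr₂, ‖P τ 0 -
      (Real.pi : ℂ) ^ 2 / (Complex.sin (Real.pi * 0)) ^ 2‖ + 1 + C₁, fun z hz0 hz => ?_⟩
  have h6 := (h1 z hz0 (hz.trans_le (min_le_left _ _))).2
  have h7 := h5 (y := z) (by simpa using hz.trans_le (min_le_right _ _))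
  have h8 : P τ z - 1 / z ^ 2 = (P τ z - (Real.pi : ℂ) ^ 2 / (Complex.sin (Real.pi * z)) ^ 2) +
      ((Real.pi : ℂ) ^ 2 / (Complex.sin (Real.pi * z)) ^ 2 - 1 / z ^ 2) := by ring
  rw [h8]
  refine (norm_add_le _ _).trans ?_
  linarith

/-- `P` takes large values near the pole -/
lemma pole_large (hR : PrgStmt) {τ : ℂ} (hτ : 0 < τ.im) (M : ℝ) :
    ∃ r > 0, ∀ z : ℂ, z ≠ 0 → ‖z‖ < r → M < ‖P τ z‖ := by
  obtain ⟨r₁, hr₁, C, hC⟩ := pole_P hR hτ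
  have hC0 : 0 ≤ |C| := abs_nonneg _
  set K := |C| + |M| + 1 with hK
  have hK1 : 1 ≤ K := by have := abs_nonneg M; linarith
  refine ⟨min r₁ (1 / K), lt_min hr₁ (by positivity), fun z hz0 hz => ?_⟩
  have h1 := hC z hz0 (hz.trans_le (min_le_left _ _))
  have h2 : ‖z‖ < 1 / K := hz.trans_le (min_le_right _ _)
  have hzp : 0 < ‖z‖ := norm_pos_iff.2 hz0
  have h3 : K < 1 / ‖z‖ ^ 2 := by
    rw [lt_div_iff₀ (by positivity)]
    rw [lt_div_iff₀ (by positivity)] at h2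
    have h4 : K * ‖z‖ ^ 2 = (‖z‖ * K) * ‖z‖ := by ring
    rw [h4]
    have h5 : ‖z‖ < 1 := by nlinarith
    nlinarith
  have h6 : ‖1 / z ^ 2‖ = 1 / ‖z‖ ^ 2 := by rw [norm_div, norm_one, norm_pow]
  have h7 : ‖1 / z ^ 2‖ ≤ ‖P τ z‖ + ‖P τ z - 1 / z ^ 2‖ := by
    have h8 : 1 / z ^ 2 = P τ z - (P τ z - 1 / z ^ 2) := by ring
    calc ‖1 / z ^ 2‖ = ‖P τ z - (P τ z - 1 / z ^ 2)‖ := by rw [← h8]
      _ ≤ _ := norm_sub_le _ _
  have h9 := le_abs_self C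
  have h10 := le_abs_self M
  rw [h6] at h7
  linarith

end

end Pool.Agent.H63.TC
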