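import Pool.Agent.H74.TC.Pdf
import Pool.Agent.H74.TC.Pole

/-!
# Project TC: module HLF, the values of `P` at the half periods
-/

open Complex Metric Set Filter Topology MeasureTheory

namespace Pool.Agent.H63.TC

noncomputable section

lemma hlf_lat_iff {τ : ℂ} (hτ : 0 < τ.im) (x y : ℝ) :
    Lat τ (x * τ + y) ↔ (∃ m : ℤ, x = m) ∧ ∃ n : ℤ, y = n := by
  constructor
  · rintro ⟨m, n, h⟩
    have h1 := congrArg Complex.im h
    simp at h1
    have h2 : x = m := by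
      rcases h1 with h1 | h1
      · exact h1
      · exact absurd h1 hτ.ne'
    refine ⟨⟨m, h2⟩, n, ?_⟩
    have h3 := congrArg Complex.re h
    simp at h3
    rw [h2] at h3
    linarith
  · rintro ⟨⟨m, hm⟩, n, hn⟩
    exact ⟨m, n, by rw [hm, hn]; push_cast; ring⟩

lemma hlf_lat_add {τ z w : ℂ} (h1 : Lat τ z) (h2 : Lat τ w) : Lat τ (z + w) := by
  obtain ⟨m, n, rfl⟩ := h1
  obtain ⟨m', n', rfl⟩ := h2
  exact ⟨m + m', n + n', by push_cast; ring⟩

lemma hlf_lat_mul {τ z : ℂ} (h1 : Lat τ z) (k : ℤ) : Lat τ (k * z) := by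
  obtain ⟨m, n, rfl⟩ := h1
  exact ⟨k * m, k * n, by push_cast; ring⟩

lemma hlf_lat_neg {τ z : ℂ} (h1 : Lat τ z) : Lat τ (-z) := by
  have := hlf_lat_mul h1 (-1)
  simpa using this

lemma hlf_lat_sub {τ z w : ℂ} (h1 : Lat τ z) (h2 : Lat τ w) : Lat τ (z - w) := by
  rw [sub_eq_add_neg]; exact hlf_lat_add h1 (hlf_lat_neg h2)

lemma hlf_lat_zero (τ : ℂ) : Lat τ 0 := ⟨0, 0, by simp⟩

lemma hlf_per (hP : PdfStmt) {τ : ℂ} (hτ : 0 < τ.im) {l : ℂ} (hl : Lat τ l) (z : ℂ) :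
    P τ (z + l) = P τ z := by
  obtain ⟨m, n, rfl⟩ := hl
  have h1 : Function.Periodic (P τ) 1 := fun z => (hP.2 τ hτ z).1
  have h2 : Function.Periodic (P τ) τ := fun z => (hP.2 τ hτ z).2.1
  have h3 := h1.int_mul n (z + m * τ)
  have h4 := h2.int_mul m z
  rw [← add_assoc]
  rw [show z + m * τ + (n : ℂ) = z + m * τ + n * 1 by ring, h3, h4]

lemma hlf_isOpen {τ : ℂ} (hτ : 0 < τ.im) (w : ℂ) : IsOpen {z : ℂ | ¬ Lat τ (z + w)} := by
  have h1 : {z : ℂ | ¬ Lat τ (z + w)} = (fun z : ℂ => (τ, z + w)) ⁻¹' YY := by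
    ext z; simp [YY, hτ]
  rw [h1]
  exact pdf_isOpen_YY.preimage (by fun_prop)

lemma hlf_diff (hP : PdfStmt) {τ : ℂ} (hτ : 0 < τ.im) {z : ℂ} (hz : ¬ Lat τ z) :
    DifferentiableAt ℂ (P τ) z := by
  have h1 : DifferentiableAt ℂ (fun q : ℂ × ℂ => P q.1 q.2) (τ, z) :=
    hP.1.differentiableAt (pdf_isOpen_YY.mem_nhds ⟨hτ, hz⟩)
  have h2 : DifferentiableAt ℂ (fun z : ℂ => (τ, z)) z := by fun_prop
  have h3 : DifferentiableAt ℂ (fun z => P τ z) z := by
    have h4 := h1.comp z h2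
    simpa only [Function.comp_def] using h4
  exact h3

lemma hlf_small (hP : PdfStmt) (hR : PrgStmt) {τ : ℂ} (hτ : 0 < τ.im) :
    ∃ r > 0, ∀ z : ℂ, z ≠ 0 → ‖z‖ < r → ¬ Lat τ z := by
  obtain ⟨r, hr, h⟩ := pole_large hR hτ ‖P τ 0‖
  refine ⟨r, hr, fun z hz0 hz hl => ?_⟩
  have h1 := h z hz0 hz
  have h2 := hlf_per hP hτ hl 0
  rw [zero_add] at h2
  rw [h2] at h1
  exact lt_irrefl _ h1

lemma hlf_half (hL : LioStmt) (hP : PdfStmt) (hR : PrgStmt) {τ : ℂ} (hτ : 0 < τ.im) (w w' : ℂ)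
    (hind : ∀ x y : ℝ, x * w + y * w' = 0 → x = 0 ∧ y = 0) (hw : ¬ Lat τ w)
    (h2w : Lat τ (2 * w)) (hw' : Lat τ w')
    (hgen : ∀ z, Lat τ z → ∃ m n : ℤ, z = m * w + n * w') :
    ∃ c : ℂ, c ≠ 0 ∧ ∀ z, ¬ Lat τ z → ¬ Lat τ (z + w) →
      (P τ z - P τ w) * (P τ (z + w) - P τ w) = c := by
  set e := P τ w with he
  set g : ℂ → ℂ := fun z => (P τ z - e) * (P τ (z + w) - e) with hg
  have hg1 : ∀ z, g (z + w) = g z := by
    intro z
    simp only [hg]
    have : z + w + w = z + 2 * w := by ring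
    rw [this, hlf_per hP hτ h2w]
    ring
  have hg2 : ∀ z, g (z + w') = g z := by
    intro z
    simp only [hg]
    have : z + w' + w = (z + w) + w' := by ring
    rw [this, hlf_per hP hτ hw', hlf_per hP hτ hw']
  have hin : ∀ z, (¬ ∃ m n : ℤ, z = m * w + n * w') → ¬ Lat τ z ∧ ¬ Lat τ (z + w) := by
    intro z hz
    refine ⟨fun h => hz (hgen z h), fun h => ?_⟩
    obtain ⟨m, n, hmn⟩ := hgen _ h
    exact hz ⟨m - 1, n, by push_cast; linear_combination hmn⟩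
  have hout : ∀ z, ¬ Lat τ z → ¬ Lat τ (z + w) → ¬ ∃ m n : ℤ, z = m * w + n * w' := by
    rintro z h1 h2 ⟨m, n, rfl⟩
    rcases Int.even_or_odd m with ⟨k, hk⟩ | ⟨k, hk⟩
    · apply h1
      have : (m : ℂ) * w + n * w' = k * (2 * w) + n * w' := by rw [hk]; push_cast; ring
      rw [this]
      exact hlf_lat_add (hlf_lat_mul h2w k) (hlf_lat_mul hw' n)
    · apply h2
      have : (m : ℂ) * w + n * w' + w = ((k + 1 : ℤ) : ℂ) * (2 * w) + n * w' := by
        rw [hk]; push_cast; ring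
      rw [this]
      exact hlf_lat_add (hlf_lat_mul h2w _) (hlf_lat_mul hw' n)
  have hd : DifferentiableOn ℂ g {z | ¬ ∃ m n : ℤ, z = m * w + n * w'} := by
    intro z hz
    obtain ⟨h1, h2⟩ := hin z hz
    have h3 : DifferentiableAt ℂ (P τ) z := hlf_diff hP hτ h1
    have h4 : DifferentiableAt ℂ (fun z => P τ (z + w)) z :=
      DifferentiableAt.comp (g := P τ) (f := fun z => z + w) z (hlf_diff hP hτ h2)
        (differentiableAt_id.add_const w)
    exact ((h3.sub_const e).mul (h4.sub_const e)).differentiableWithinAt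
  -- boundedness near 0
  have hh : ∃ r > 0, ∃ C : ℝ, ∀ z : ℂ, ‖z‖ < r → ‖P τ (z + w) - e‖ ≤ C * ‖z‖ ^ 2 := by
    have ha : AnalyticAt ℂ (fun z => P τ (z + w)) 0 := by
      have hopen := hlf_isOpen hτ w
      have h0 : {z : ℂ | ¬ Lat τ (z + w)} ∈ 𝓝 (0 : ℂ) := hopen.mem_nhds (by simpa using hw)
      refine DifferentiableOn.analyticAt (s := {z : ℂ | ¬ Lat τ (z + w)}) ?_ h0
      intro z hz
      exact (DifferentiableAt.comp (g := P τ) (f := fun z => z + w) z (hlf_diff hP hτ hz)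
        (differentiableAt_id.add_const w)).differentiableWithinAt
    have hev : ∀ᶠ z in 𝓝 (0 : ℂ), P τ (-z + w) = P τ (z + w) := by
      refine Eventually.of_forall (fun z => ?_)
      have h1 : P τ (-z + w) = P τ (z - w) := by
        rw [← (hP.2 τ hτ (z - w)).2.2]; congr 1; ring
      have h2 : P τ (z - w) = P τ (z + w) := by
        rw [← hlf_per hP hτ h2w (z - w)]; congr 1; ring
      rw [h1, h2]
    obtain ⟨r, hr, C, h⟩ := pole_even_bound ha hev
    refine ⟨r, hr, C, fun z hz => ?_⟩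
    have := h z hz
    simpa [he] using this
  have hb : ∃ r > 0, ∃ C : ℝ, ∀ z, z ≠ 0 → ‖z‖ < r → ‖g z‖ ≤ C := by
    obtain ⟨r₁, hr₁, C₁, h1⟩ := hh
    obtain ⟨r₂, hr₂, C₂, h2⟩ := pole_P hR hτ
    refine ⟨min 1 (min r₁ r₂), by positivity, |C₁| * (1 + |C₂| + ‖e‖), fun z hz0 hz => ?_⟩
    have hz1 : ‖z‖ < 1 := hz.trans_le (min_le_left _ _)
    have h3 := h1 z (hz.trans_le ((min_le_right _ _).trans (min_le_left _ _)))
    have h4 := h2 z hz0 (hz.trans_le ((min_le_right _ _).trans (min_le_right _ _)))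
    have hzp : 0 < ‖z‖ := norm_pos_iff.2 hz0
    have h5 : ‖P τ z - e‖ ≤ 1 / ‖z‖ ^ 2 + |C₂| + ‖e‖ := by
      have h6 : P τ z - e = 1 / z ^ 2 + (P τ z - 1 / z ^ 2) - e := by ring
      rw [h6]
      refine (norm_sub_le _ _).trans ?_
      have h7 := norm_add_le (1 / z ^ 2) (P τ z - 1 / z ^ 2)
      have h8 : ‖1 / z ^ 2‖ = 1 / ‖z‖ ^ 2 := by rw [norm_div, norm_one, norm_pow]
      rw [h8] at h7
      have := le_abs_self C₂
      linarith
    have h9 : ‖P τ (z + w) - e‖ ≤ |C₁| * ‖z‖ ^ 2 :=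
      h3.trans (mul_le_mul_of_nonneg_right (le_abs_self _) (by positivity))
    simp only [hg]
    rw [norm_mul]
    have h10 : ‖P τ z - e‖ * ‖P τ (z + w) - e‖ ≤
        (1 / ‖z‖ ^ 2 + |C₂| + ‖e‖) * (|C₁| * ‖z‖ ^ 2) :=
      mul_le_mul h5 h9 (norm_nonneg _) (by positivity)
    refine h10.trans ?_
    have h11 : (1 / ‖z‖ ^ 2 + |C₂| + ‖e‖) * (|C₁| * ‖z‖ ^ 2) =
        |C₁| * (1 + (|C₂| + ‖e‖) * ‖z‖ ^ 2) := by
      field_simp
      ring
    rw [h11]
    apply mul_le_mul_of_nonneg_left _ (abs_nonneg _)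
    have h12 : ‖z‖ ^ 2 ≤ 1 := by nlinarith
    have h13 : 0 ≤ |C₂| + ‖e‖ := by positivity
    nlinarith
  obtain ⟨c, hc⟩ := hL w w' hind g hg1 hg2 hd hb
  refine ⟨c, ?_, fun z h1 h2 => hc z (hout z h1 h2)⟩
  intro hc0
  -- the product vanishes identically
  obtain ⟨r₁, hr₁, h1⟩ := pole_large hR hτ ‖e‖
  obtain ⟨r₂, hr₂, h2⟩ := hlf_small hP hR hτ
  have h3 : ∀ᶠ z in 𝓝 (0 : ℂ), ¬ Lat τ (z + w) :=
    (hlf_isOpen hτ w).mem_nhds (by simpa using hw)
  have h4 : ∀ᶠ z in 𝓝 (0 : ℂ), P τ (z + w) = e := by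
    filter_upwards [h3, ball_mem_nhds (0 : ℂ) (lt_min hr₁ hr₂)] with z hz hzb
    rw [mem_ball_zero_iff] at hzb
    by_cases hz0 : z = 0
    · rw [hz0, zero_add]
    · have h5 := h1 z hz0 (hzb.trans_le (min_le_left _ _))
      have h6 := h2 z hz0 (hzb.trans_le (min_le_right _ _))
      have h7 := hc z (hout z h6 hz)
      rw [hc0] at h7
      simp only [hg] at h7
      rcases mul_eq_zero.1 h7 with h8 | h8
      · rw [sub_eq_zero] at h8
        rw [h8] at h5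
        exact absurd h5 (lt_irrefl _)
      · exact sub_eq_zero.1 h8
  have h5 : P τ =ᶠ[𝓝 w] fun _ => e := by
    have h6 : Tendsto (fun z : ℂ => z - w) (𝓝 w) (𝓝 0) := by
      have : Continuous (fun z : ℂ => z - w) := by fun_prop
      have h7 := this.tendsto w
      simpa using h7
    filter_upwards [h6.eventually h4] with z hz
    rwa [sub_add_cancel] at hz
  have hcount : ({z : ℂ | Lat τ z}).Countable := by
    have : {z : ℂ | Lat τ z} = Set.range (fun k : ℤ × ℤ => (k.1 : ℂ) * τ + k.2) := by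
      ext z
      constructor
      · rintro ⟨m, n, h⟩; exact ⟨(m, n), h.symm⟩
      · rintro ⟨⟨m, n⟩, h⟩; exact ⟨m, n, h.symm⟩
    rw [this]
    exact Set.countable_range _
  have hconn : IsPreconnected ({z : ℂ | Lat τ z}ᶜ) := by
    have h8 : 1 < Module.rank ℝ ℂ := by
      rw [Complex.rank_real_complex]; norm_num
    exact (hcount.isPathConnected_compl_of_one_lt_rank h8).isConnected.isPreconnected
  have hopen0 : IsOpen ({z : ℂ | Lat τ z}ᶜ) := by
    have := hlf_isOpen hτ 0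
    simpa [Set.compl_def] using this
  have hPa : AnalyticOnNhd ℂ (P τ) ({z : ℂ | Lat τ z}ᶜ) := by
    apply DifferentiableOn.analyticOnNhd _ hopen0
    intro z hz
    exact (hlf_diff hP hτ hz).differentiableWithinAt
  have h9 := hPa.eqOn_of_preconnected_of_eventuallyEq (g := fun _ => e) analyticOnNhd_const
    hconn (z₀ := w) hw h5
  -- contradiction at a small point
  set z₁ : ℂ := ((min r₁ r₂ / 2 : ℝ) : ℂ) with hz₁
  have hm : 0 < min r₁ r₂ := lt_min hr₁ hr₂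
  have hz₁0 : z₁ ≠ 0 := by
    rw [hz₁]; exact_mod_cast (by positivity : min r₁ r₂ / 2 ≠ 0)
  have hz₁n : ‖z₁‖ < min r₁ r₂ := by
    rw [hz₁, Complex.norm_real, Real.norm_eq_abs, abs_of_pos (by positivity)]
    linarith
  have h10 := h1 z₁ hz₁0 (hz₁n.trans_le (min_le_left _ _))
  have h11 := h9 (h2 z₁ hz₁0 (hz₁n.trans_le (min_le_right _ _)))
  simp only at h11
  rw [h11] at h10
  exact lt_irrefl _ h10

lemma hlf_ind {τ : ℂ} (hτ : 0 < τ.im) {a b c d : ℝ} (hdet : a * d - b * c ≠ 0) :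
    ∀ x y : ℝ, (x : ℂ) * (a * τ + b) + y * (c * τ + d) = 0 → x = 0 ∧ y = 0 := by
  intro x y h
  have h1 := congrArg Complex.im h
  have h2 := congrArg Complex.re h
  simp at h1 h2
  have h3 : x * a + y * c = 0 := by
    have : (x * a + y * c) * τ.im = 0 := by linarith
    rcases mul_eq_zero.1 this with h | h
    · exact h
    · exact absurd h hτ.ne'
  have h4 : x * b + y * d = 0 := by
    have : (x * a + y * c) * τ.re = 0 := by rw [h3, zero_mul]
    linarith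
  constructor
  · have : x * (a * d - b * c) = 0 := by linear_combination d * h3 - c * h4
    rcases mul_eq_zero.1 this with h | h
    · exact h
    · exact absurd h hdet
  · have : y * (a * d - b * c) = 0 := by linear_combination a * h4 - b * h3
    rcases mul_eq_zero.1 this with h | h
    · exact h
    · exact absurd h hdet

lemma hlf_half_int (n : ℤ) : (1 / 2 : ℝ) ≠ n := by
  intro h
  have h1 : (1 : ℝ) = 2 * n := by linarith
  have h2 : (1 : ℤ) = 2 * n := by exact_mod_cast h1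
  omega

lemma hlf_notLat {τ : ℂ} (hτ : 0 < τ.im) :
    ¬ Lat τ (τ / 2) ∧ ¬ Lat τ ((1 + τ) / 2) ∧ ¬ Lat τ (1 / 2) := by
  refine ⟨?_, ?_, ?_⟩
  · have h1 : τ / 2 = ((1 / 2 : ℝ) : ℂ) * τ + ((0 : ℝ) : ℂ) := by push_cast; ring
    rw [h1, hlf_lat_iff hτ]
    rintro ⟨⟨m, hm⟩, -⟩
    exact hlf_half_int m hm
  · have h1 : (1 + τ) / 2 = ((1 / 2 : ℝ) : ℂ) * τ + ((1 / 2 : ℝ) : ℂ) := by push_cast; ring
    rw [h1, hlf_lat_iff hτ]
    rintro ⟨⟨m, hm⟩, -⟩
    exact hlf_half_int m hm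
  · have h1 : (1 / 2 : ℂ) = ((0 : ℝ) : ℂ) * τ + ((1 / 2 : ℝ) : ℂ) := by push_cast; ring
    rw [h1, hlf_lat_iff hτ]
    rintro ⟨-, ⟨m, hm⟩⟩
    exact hlf_half_int m hm

lemma hlf_notLat_of_sub {τ z w : ℂ} (hw : Lat τ w) (h : ¬ Lat τ (z - w)) : ¬ Lat τ z :=
  fun hz => h (hlf_lat_sub hz hw)

theorem hlf (hL : LioStmt) (hP : PdfStmt) (hR : PrgStmt) : HlfStmt := by
  intro τ hτ
  obtain ⟨n1, n2, n3⟩ := hlf_notLat hτ
  have l1 : Lat τ 1 := ⟨0, 1, by simp⟩
  have lτ : Lat τ τ := ⟨1, 0, by simp⟩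
  -- the three relations
  obtain ⟨c₁, hc₁, h1⟩ := hlf_half hL hP hR hτ (τ / 2) 1
    (by
      have := hlf_ind hτ (a := 1 / 2) (b := 0) (c := 0) (d := 1) (by norm_num)
      intro x y h
      apply this x y
      rw [← h]; push_cast; ring)
    n1 (by simpa using (by ring_nf; exact lτ : Lat τ (2 * (τ / 2)))) l1
    (by
      rintro z ⟨m, n, rfl⟩
      exact ⟨2 * m, n, by push_cast; ring⟩)
  obtain ⟨c₂, hc₂, h2⟩ := hlf_half hL hP hR hτ ((1 + τ) / 2) 1
    (by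
      have := hlf_ind hτ (a := 1 / 2) (b := 1 / 2) (c := 0) (d := 1) (by norm_num)
      intro x y h
      apply this x y
      rw [← h]; push_cast; ring)
    n2 (by
      have : 2 * ((1 + τ) / 2) = 1 + τ := by ring
      rw [this]; exact hlf_lat_add l1 lτ) l1
    (by
      rintro z ⟨m, n, rfl⟩
      exact ⟨2 * m, n - m, by push_cast; ring⟩)
  obtain ⟨c₃, hc₃, h3⟩ := hlf_half hL hP hR hτ (1 / 2) τ
    (by
      have := hlf_ind hτ (a := 0) (b := 1 / 2) (c := 1) (d := 0) (by norm_num)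
      intro x y h
      apply this x y
      rw [← h]; push_cast; ring)
    n3 (by
      have : 2 * (1 / 2 : ℂ) = 1 := by ring
      rw [this]; exact l1) lτ
    (by
      rintro z ⟨m, n, rfl⟩
      exact ⟨2 * n, m, by push_cast; ring⟩)
  have key : ∀ (w c z : ℂ), c ≠ 0 → (∀ z, ¬ Lat τ z → ¬ Lat τ (z + w) →
      (P τ z - P τ w) * (P τ (z + w) - P τ w) = c) → ¬ Lat τ z → ¬ Lat τ (z + w) →
      P τ z ≠ P τ w := by
    intro w c z hc h hz hzw heq
    have := h z hz hzw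
    rw [heq, sub_self, zero_mul] at this
    exact hc this.symm
  refine ⟨?_, ?_, ?_, ?_⟩
  · -- e1 ≠ e2
    have := key (τ / 2) c₁ ((1 + τ) / 2) hc₁ h1 n2 (by
      apply hlf_notLat_of_sub lτ
      have : (1 + τ) / 2 + τ / 2 - τ = 1 / 2 := by ring
      rw [this]; exact n3)
    exact this.symm
  · have := key (τ / 2) c₁ (1 / 2) hc₁ h1 n3 (by
      have : 1 / 2 + τ / 2 = (1 + τ) / 2 := by ring
      rw [this]; exact n2)
    exact this.symm
  · have := key ((1 + τ) / 2) c₂ (1 / 2) hc₂ h2 n3 (by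
      apply hlf_notLat_of_sub l1
      have : 1 / 2 + (1 + τ) / 2 - 1 = τ / 2 := by ring
      rw [this]; exact n1)
    exact this.symm
  · intro z hz
    have hz' : ¬ Lat τ z := by
      intro h
      apply hz
      have := hlf_lat_add h h
      rwa [← two_mul] at this
    have hzw : ∀ w : ℂ, Lat τ (2 * w) → ¬ Lat τ (z + w) := by
      intro w hw h
      apply hz
      have h1 := hlf_lat_sub (hlf_lat_add h h) hw
      have h2 : z + w + (z + w) - 2 * w = 2 * z := by ring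
      rwa [h2] at h1
    refine ⟨?_, ?_, ?_⟩
    · exact key _ _ _ hc₁ h1 hz' (hzw _ (by
        have : 2 * (τ / 2) = τ := by ring
        rw [this]; exact lτ))
    · exact key _ _ _ hc₂ h2 hz' (hzw _ (by
        have : 2 * ((1 + τ) / 2) = 1 + τ := by ring
        rw [this]; exact hlf_lat_add l1 lτ))
    · exact key _ _ _ hc₃ h3 hz' (hzw _ (by
        have : 2 * (1 / 2 : ℂ) = 1 := by ring
        rw [this]; exact l1))

end

end Pool.Agent.H63.TC
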