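import Pool.Agent.H74.TC.Hlf

/-!
# Project TC: module HYP, vanishing on a real hypersurface foliated by leaves
-/

open Complex Metric Set Filter Topology MeasureTheory

namespace Pool.Agent.H63.TC

noncomputable section

/-- a holomorphic function on a disc which vanishes on the real diameter vanishes -/
lemma hyp_real {φ : ℂ → ℂ} {r : ℝ} (hr : 0 < r) (hd : DifferentiableOn ℂ φ (ball 0 r))
    (h0 : ∀ t : ℝ, |t| < r → φ t = 0) : ∀ s ∈ ball (0 : ℂ) r, φ s = 0 := by
  have ha : AnalyticOnNhd ℂ φ (ball 0 r) := hd.analyticOnNhd isOpen_ball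
  have hfr : ∃ᶠ z in 𝓝[≠] (0 : ℂ), φ z = 0 := by
    rw [Filter.frequently_iff]
    intro U hU
    rw [mem_nhdsWithin_iff] at hU
    obtain ⟨ε, hε, hεU⟩ := hU
    set t : ℝ := min ε r / 2 with ht
    have ht0 : 0 < t := by positivity
    have htε : t < ε := by
      have := min_le_left ε r
      have : t ≤ ε / 2 := by rw [ht]; linarith
      linarith
    have htr : t < r := by
      have := min_le_right ε r
      have : t ≤ r / 2 := by rw [ht]; linarith
      linarith
    refine ⟨(t : ℂ), hεU ⟨?_, ?_⟩, h0 t (by rw [abs_of_pos ht0]; exact htr)⟩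
    · rw [mem_ball_zero_iff, Complex.norm_real, Real.norm_eq_abs, abs_of_pos ht0]
      exact htε
    · simp [ht0.ne']
  have := ha.eqOn_zero_of_preconnected_of_frequently_eq_zero
    (convex_ball (0 : ℂ) r).isPreconnected (mem_ball_self hr) hfr
  exact this

theorem hyp (hLiw : LiwStmt) (hPhd : PhdStmt) (hIdt : IdtStmt) : HypStmt := by
  intro V _ _ A W f α β a b ρ τ₀ Q hf hαβ hρ hρτ hQ hQW
  have hτ₀ : 0 < τ₀.im := lt_of_lt_of_le hρ hρτ
  have hnz : ∀ τ : ℂ, 0 < τ.im → (α : ℂ) - β * τ ≠ 0 := by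
    intro τ hτ h
    have h1 := congrArg Complex.im h
    have h2 := congrArg Complex.re h
    simp at h1 h2
    have hβ : β = 0 := by
      rcases h1 with h1 | h1
      · exact h1
      · exact absurd h1 hτ.ne'
    rw [hβ] at h2
    simp at h2
    rcases hαβ with h3 | h3
    · exact h3 h2
    · exact h3 hβ
  -- the map
  set g : ℂ × ℂ → ℂ × ℂ := fun x => (x.2, a * x.2 + b + x.1 * (α - β * x.2)) with hg
  have hgc : Continuous g := by fun_prop
  have h00 : (0 : ℝ) ∈ Ioo (-ρ) ρ := ⟨by linarith, hρ⟩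
  have hQ0 := hQW 0 h00 τ₀ (mem_ball_self hρ)
  set p₀ := Q 0 τ₀ with hp₀
  have hg0 : g (0, τ₀) = W.W p₀ := by
    rw [hQ0.1]; simp [hg]
  have hgY : g (0, τ₀) ∈ YY := by rw [hg0]; exact W.mem p₀
  have hnb : g ⁻¹' YY ∈ 𝓝 ((0 : ℂ), τ₀) := hgc.continuousAt.preimage_mem_nhds
    (pdf_isOpen_YY.mem_nhds hgY)
  obtain ⟨r₁, hr₁, hr₁s⟩ := Metric.mem_nhds_iff.1 hnb
  set r := min r₁ ρ with hrd
  have hr : 0 < r := lt_min hr₁ hρ
  have hrs : ∀ x ∈ ball ((0 : ℂ), τ₀) r, g x ∈ YY := fun x hx =>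
    hr₁s (ball_subset_ball (min_le_left _ _) hx)
  obtain ⟨R, hR1, hR2, hR3⟩ := hLiw V A W (ℂ × ℂ) (ball ((0 : ℂ), τ₀) r) g (0, τ₀) p₀
    (convex_ball _ _) (mem_ball_self hr) hgc.continuousOn hrs hg0.symm
  have hER : ∀ x ∈ ball ((0 : ℂ), τ₀) r, A.E (R x) = Phi (g x) := by
    intro x hx
    rw [← W.Phi_W, hR2 x hx]
  -- R agrees with Q on the real part
  have hRQ : ∀ t : ℝ, |t| < r → ∀ τ ∈ ball τ₀ r, R ((t : ℂ), τ) = Q t τ := by
    have hS : IsPreconnected (Ioo (-r) r ×ˢ ball τ₀ r : Set (ℝ × ℂ)) :=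
      ((convex_Ioo _ _).prod (convex_ball _ _)).isPreconnected
    have hemb : ∀ x ∈ (Ioo (-r) r ×ˢ ball τ₀ r : Set (ℝ × ℂ)),
        ((x.1 : ℂ), x.2) ∈ ball ((0 : ℂ), τ₀) r := by
      rintro ⟨t, τ⟩ ⟨h1, h2⟩
      rw [mem_ball, Prod.dist_eq]
      refine max_lt ?_ h2
      rw [dist_zero_right, Complex.norm_real, Real.norm_eq_abs]
      exact abs_lt.2 h1
    have hsub : (Ioo (-r) r ×ˢ ball τ₀ r : Set (ℝ × ℂ)) ⊆ Ioo (-ρ) ρ ×ˢ ball τ₀ ρ := by
      have : r ≤ ρ := min_le_right _ _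
      exact Set.prod_mono (Ioo_subset_Ioo (by linarith) this) (ball_subset_ball this)
    have h3 := A.eqOn_of_E hS
      (f := fun x : ℝ × ℂ => R ((x.1 : ℂ), x.2)) (g := fun x : ℝ × ℂ => Q x.1 x.2)
      (hR1.comp (by fun_prop) hemb) (hQ.mono hsub) (by
        intro x hx
        rw [hER _ (hemb x hx), ← W.Phi_W (Q x.1 x.2),
          (hQW x.1 (hsub hx).1 x.2 (hsub hx).2).1])
      (t₀ := (0, τ₀)) ⟨⟨by simp [hr], by simp [hr]⟩, mem_ball_self hr⟩ (by
        simp only [Complex.ofReal_zero]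
        rw [hR3])
    intro t ht τ hτ
    exact h3 (x := (t, τ)) ⟨abs_lt.1 ht, hτ⟩
  -- f vanishes on the image of R
  have hfR : ∀ x ∈ ball ((0 : ℂ), τ₀) r, f (R x) = 0 := by
    rintro ⟨s, τ⟩ hx
    rw [mem_ball, Prod.dist_eq, max_lt_iff] at hx
    obtain ⟨hs, hτ⟩ := hx
    simp only at hs hτ
    have hmem : ∀ s ∈ ball (0 : ℂ) r, (s, τ) ∈ ball ((0 : ℂ), τ₀) r := by
      intro s hs
      rw [mem_ball, Prod.dist_eq]
      exact max_lt hs hτ
    refine hyp_real (φ := fun s => f (R (s, τ))) hr ?_ ?_ s (by simpa using hs)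
    · intro s hs
      refine DifferentiableAt.differentiableWithinAt ?_
      have hx := hmem s hs
      have hc : ContinuousAt (fun s => R (s, τ)) s := by
        have h1 : ContinuousAt R (s, τ) := hR1.continuousAt (isOpen_ball.mem_nhds hx)
        have h2 : ContinuousAt (fun s : ℂ => (s, τ)) s := by fun_prop
        exact ContinuousAt.comp (f := fun s : ℂ => (s, τ)) (g := R) h1 h2
      refine hf.comp_differentiableAt hc ?_
      obtain ⟨L, hL, -⟩ := (hPhd (g (s, τ)) (hrs _ hx)).2.2.2.2.2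
      have h3 : DifferentiableAt ℂ Phi (g (s, τ)) := hL.hasFDerivAt.differentiableAt
      have h4 : DifferentiableAt ℂ (fun s : ℂ => g (s, τ)) s := by
        simp only [hg]; fun_prop
      have h5 := h3.comp s h4
      refine h5.congr_of_eventuallyEq ?_
      filter_upwards [isOpen_ball.mem_nhds hs] with s' hs'
      exact hER _ (hmem s' hs')
    · intro t ht
      rw [hRQ t ht τ hτ]
      refine (hQW t ?_ τ ?_).2
      · have : r ≤ ρ := min_le_right _ _
        exact abs_lt.1 (ht.trans_le this)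
      · exact ball_subset_ball (min_le_right _ _) hτ
  -- a neighbourhood of p₀ is in the image of R
  set k : V → ℂ × ℂ := fun p =>
    (((W.W p).2 - a * (W.W p).1 - b) / (α - β * (W.W p).1), (W.W p).1) with hk
  have hkc : Continuous k := by
    have h1 := W.cont
    have h2 : Continuous (fun p => (W.W p).1) := continuous_fst.comp h1
    have h3 : Continuous (fun p => (W.W p).2) := continuous_snd.comp h1
    refine Continuous.prodMk ?_ h2
    refine Continuous.div ?_ ?_ (fun p => hnz _ (W.mem p).1)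
    · fun_prop
    · fun_prop
  have hk0 : k p₀ = (0, τ₀) := by
    simp only [hk]
    rw [hQ0.1]
    simp
  have hgk : ∀ p, g (k p) = W.W p := by
    intro p
    have := hnz _ (W.mem p).1
    simp only [hg, hk]
    ext
    · rfl
    · simp only
      rw [div_mul_cancel₀ _ this]
      ring
  have hkb : ∀ᶠ p in 𝓝 p₀, k p ∈ ball ((0 : ℂ), τ₀) r := by
    apply hkc.continuousAt
    rw [hk0]; exact ball_mem_nhds _ hr
  have hRk : Tendsto (fun p => R (k p)) (𝓝 p₀) (𝓝 p₀) := by
    have h1 : ContinuousAt R (k p₀) := by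
      rw [hk0]; exact hR1.continuousAt (ball_mem_nhds _ hr)
    have h2 : ContinuousAt (fun p => R (k p)) p₀ :=
      ContinuousAt.comp (f := k) (g := R) h1 hkc.continuousAt
    have h3 := h2.tendsto
    rw [hk0, hR3] at h3
    exact h3
  have hnear : ∀ᶠ p in 𝓝 p₀, f p = 0 := by
    filter_upwards [hkb, hRk.eventually (A.near p₀), A.near p₀] with p h1 h2 h3
    have h4 : R (k p) = p := by
      calc R (k p) = A.sec p₀ (A.E (R (k p))) := h2.symm
        _ = A.sec p₀ (A.E p) := by rw [hER _ h1, hgk, W.Phi_W]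
        _ = p := h3
    rw [← h4]
    exact hfR _ h1
  obtain ⟨O, hO, hOo, hpO⟩ := eventually_nhds_iff.1 hnear
  intro p
  have := hIdt V A ℂ f (fun _ => 0) O hf (fun q => by
    exact differentiableAt_const _) hOo ⟨p₀, hpO⟩ hO p
  exact this

end

end Pool.Agent.H63.TC
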