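import Pool.Agent.H74.TC.Hlf

/-!
# Project TC: modules LEF (family of leaves) and ZM2 (recentering by deck transformations)
-/

open Complex Metric Set Filter Topology MeasureTheory

namespace Pool.Agent.H63.TC

noncomputable section

theorem lef (hLiw : LiwStmt) : LefStmt := by
  intro V _ _ A W p₀
  obtain ⟨ht, hu⟩ := W.mem p₀
  set t := (W.W p₀).1 with htd
  set u := (W.W p₀).2 with hud
  set a₀ : ℝ := u.im / t.im with ha₀
  set b₀ : ℝ := u.re - a₀ * t.re with hb₀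
  have hue : u = a₀ * t + b₀ := by
    have h1 : a₀ * t.im = u.im := by rw [ha₀]; field_simp
    apply Complex.ext
    · simp [hb₀]
    · simp [h1]
  -- the set of good b
  have hnot : ¬ ((∃ m : ℤ, a₀ = m) ∧ ∃ n : ℤ, b₀ = n) := by
    intro h
    apply hu
    rw [hue]
    exact (hlf_lat_iff ht a₀ b₀).2 h
  have hε : ∃ ε > 0, ∀ b : ℝ, |b - b₀| < ε → ¬ ((∃ m : ℤ, a₀ = m) ∧ ∃ n : ℤ, b = n) := by
    by_cases h : ∃ m : ℤ, a₀ = m
    · have h2 : b₀ ∈ (Set.range ((↑) : ℤ → ℝ))ᶜ := by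
        rintro ⟨n, hn⟩
        exact hnot ⟨h, n, hn.symm⟩
      have h3 : IsOpen ((Set.range ((↑) : ℤ → ℝ))ᶜ) :=
        Int.isClosedEmbedding_coe_real.isClosed_range.isOpen_compl
      obtain ⟨ε, hε, hb⟩ := Metric.isOpen_iff.1 h3 b₀ h2
      refine ⟨ε, hε, fun b hbε => ?_⟩
      rintro ⟨-, n, hn⟩
      exact hb (show b ∈ ball b₀ ε from hbε) ⟨n, hn.symm⟩
    · exact ⟨1, one_pos, fun b _ h' => h h'.1⟩
  obtain ⟨ε, hε, hεb⟩ := hε
  obtain ⟨G, hG1, hG2, hG3⟩ := hLiw V A W (ℝ × ℂ)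
    (Ioo (b₀ - ε) (b₀ + ε) ×ˢ {τ : ℂ | 0 < τ.im})
    (fun q => (q.2, a₀ * q.2 + q.1)) (b₀, t) p₀
    (by
      refine (convex_Ioo _ _).prod ?_
      exact convex_halfSpace_im_gt 0)
    (by
      refine ⟨⟨by simp [hε], by simp [hε]⟩, ht⟩)
    (by fun_prop)
    (by
      rintro ⟨b, τ⟩ ⟨hb, hτ⟩
      refine ⟨hτ, ?_⟩
      simp only
      rw [hlf_lat_iff hτ]
      apply hεb
      rw [abs_lt]
      constructor
      · have := hb.1; simp only at this; linarith
      · have := hb.2; simp only at this; linarith)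
    (by
      simp only
      rw [← hue])
  refine ⟨a₀, b₀ - ε, b₀ + ε, b₀, fun b τ => G (b, τ), ⟨by linarith, by linarith⟩, hG1, ?_, hG3⟩
  intro b hb τ hτ
  exact hG2 (b, τ) ⟨hb, hτ⟩

lemma zm2_den {a b c d : ℤ} (h : a * d - b * c = 1) {τ : ℂ} (hτ : 0 < τ.im) :
    (c : ℂ) * τ + d ≠ 0 := by
  intro h0
  have h1 := congrArg Complex.im h0
  have h2 := congrArg Complex.re h0
  simp at h1 h2
  have hc : c = 0 := by
    rcases h1 with h1 | h1
    · exact h1
    · exact absurd h1 hτ.ne'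
  rw [hc] at h2 h
  have hd : d = 0 := by
    simp at h2
    exact h2
  rw [hd] at h
  simp at h

lemma zm2_act_cont {a b c d : ℤ} (h : a * d - b * c = 1) (m n : ℤ) :
    ContinuousOn (act a b c d m n) {q : ℂ × ℂ | 0 < q.1.im} := by
  unfold act
  have hden : ∀ q ∈ {q : ℂ × ℂ | 0 < q.1.im}, (c : ℂ) * q.1 + d ≠ 0 := fun q hq => zm2_den h hq
  have h1 : ContinuousOn (fun q : ℂ × ℂ => (a * q.1 + b) / (c * q.1 + d))
      {q : ℂ × ℂ | 0 < q.1.im} := by
    apply ContinuousOn.div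
    · fun_prop
    · fun_prop
    · exact hden
  have h2 : ContinuousOn (fun q : ℂ × ℂ => q.2 / (c * q.1 + d)) {q : ℂ × ℂ | 0 < q.1.im} := by
    apply ContinuousOn.div
    · fun_prop
    · fun_prop
    · exact hden
  exact h1.prodMk ((h2.add (h1.const_smul (2 * (m : ℂ)))).add continuousOn_const)

theorem zm2 (hWcv : WcvStmt) (hInv : InvStmt) (hDeck : DeckStmt) (hUnq : UnqStmt) : Zm2Stmt := by
  intro V _ _ A W KY hKY hKYs
  have hloc := A.locallyCompact
  have hcov := (hWcv V A W).1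
  have hsur := (hWcv V A W).2
  have hopen := hcov.isLocalHomeomorph.isOpenMap
  -- KY as a compact subset of YY
  have hK' : IsCompact {q : YY | (q : ℂ × ℂ) ∈ KY} := by
    rw [Topology.IsEmbedding.subtypeVal.isCompact_iff]
    have : Subtype.val '' {q : YY | (q : ℂ × ℂ) ∈ KY} = KY := by
      ext q
      constructor
      · rintro ⟨q', hq', rfl⟩; exact hq'
      · intro hq; exact ⟨⟨q, hKYs hq⟩, hq, rfl⟩
    rw [this]; exact hKY
  have hchoose : ∀ q : YY, ∃ K : Set V, IsCompact K ∧ ∃ p, (⟨W.W p, W.mem p⟩ : YY) = q ∧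
      p ∈ interior K := by
    intro q
    obtain ⟨p, hp⟩ := hsur q
    obtain ⟨K, hK, hpK⟩ := exists_compact_mem_nhds p
    exact ⟨K, hK, p, hp, mem_interior_iff_mem_nhds.2 hpK⟩
  choose K hKc hKp using hchoose
  obtain ⟨T, hT⟩ := hK'.elim_finite_subcover
    (fun q : YY => (fun p => (⟨W.W p, W.mem p⟩ : YY)) '' (interior (K q)))
    (fun q => hopen _ isOpen_interior) (by
      intro q hq
      rw [Set.mem_iUnion]
      obtain ⟨p, hp, hpK⟩ := hKp q
      exact ⟨q, p, hpK, hp⟩)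
  refine ⟨⋃ q ∈ T, K q, T.isCompact_biUnion (fun q _ => hKc q), ?_⟩
  intro x a b c d m n hG hact
  obtain ⟨hmemY, hPhi⟩ := hInv a b c d m n hG (W.W x) (W.mem x)
  have hmemK : (⟨act a b c d m n (W.W x), hmemY⟩ : YY) ∈ {q : YY | (q : ℂ × ℂ) ∈ KY} := hact
  have h1 := hT hmemK
  simp only [Set.mem_iUnion] at h1
  obtain ⟨q, hqT, p, hpK, hp⟩ := h1
  have hWp : W.W p = act a b c d m n (W.W x) := congrArg Subtype.val hp
  have hEp : A.E x = A.E p := by
    rw [← W.Phi_W x, ← W.Phi_W p, hWp, hPhi]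
  obtain ⟨g, hg, hgx⟩ := hDeck V A x p hEp
  refine ⟨g, hg, ?_, ?_⟩
  · intro y
    have h2 := hUnq V Set.univ (fun y => W.W (g y)) (fun y => act a b c d m n (W.W y)) x
      isPreconnected_univ
      (W.cont.comp g.continuous).continuousOn
      ((zm2_act_cont hG.1 m n).comp W.cont.continuousOn (fun y _ => (W.mem y).1))
      (fun y _ => W.mem (g y))
      (fun y _ => (hInv a b c d m n hG (W.W y) (W.mem y)).1)
      (fun y _ => by
        rw [(hInv a b c d m n hG (W.W y) (W.mem y)).2, W.Phi_W, W.Phi_W, hg])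
      (Set.mem_univ x) (by simp only [hgx]; exact hWp)
    exact h2 y (Set.mem_univ y)
  · rw [hgx]
    simp only [Set.mem_iUnion]
    exact ⟨q, hqT, interior_subset hpK⟩

end

end Pool.Agent.H63.TC
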