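import Pool.Agent.H63.TC.Stmts

/-!
# Project TC: module LIO, Liouville's theorem for doubly periodic functions
-/

open Complex Metric Set Filter Topology MeasureTheory

namespace Pool.Agent.H63.TC

theorem lio : LioStmt := by
  intro w₁ w₂ hind f hf1 hf2 hd hb
  have hli : LinearIndependent ℝ ![w₁, w₂] := by
    rw [LinearIndependent.pair_iff]
    intro s t h
    exact hind s t (by simpa [Complex.real_smul] using h)
  set L : PeriodPair := ⟨w₁, w₂, hli⟩ with hL
  have hmem : ∀ z : ℂ, z ∈ L.lattice ↔ ∃ m n : ℤ, z = m * w₁ + n * w₂ := by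
    intro z
    rw [PeriodPair.mem_lattice]
    constructor
    · rintro ⟨m, n, h⟩; exact ⟨m, n, h.symm⟩
    · rintro ⟨m, n, h⟩; exact ⟨m, n, h.symm⟩
  -- periodicity under the lattice
  have hper1 : ∀ (m : ℤ) (z : ℂ), f (z + m * w₁) = f z := by
    intro m z
    have := (show Function.Periodic f w₁ from hf1).int_mul m z
    simpa using this
  have hper2 : ∀ (m : ℤ) (z : ℂ), f (z + m * w₂) = f z := by
    intro m z
    have := (show Function.Periodic f w₂ from hf2).int_mul m z
    simpa using this
  have hper : ∀ z, ∀ l ∈ L.lattice, f (z + l) = f z := by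
    intro z l hl
    obtain ⟨m, n, h⟩ := (hmem l).1 hl
    rw [h, ← add_assoc, hper2, hper1]
  classical
  set c₀ : ℂ := limUnder (𝓝[≠] 0) f with hc₀
  set g : ℂ → ℂ := fun z => if z ∈ L.lattice then c₀ else f z with hg
  have hgper : ∀ z, ∀ l ∈ L.lattice, g (z + l) = g z := by
    intro z l hl
    have h1 : z + l ∈ L.lattice ↔ z ∈ L.lattice :=
      ⟨fun h => by simpa using L.lattice.sub_mem h hl, fun h => L.lattice.add_mem h hl⟩
    simp only [hg, h1, hper z l hl]
  -- differentiability at 0
  have h0 : DifferentiableAt ℂ g 0 := by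
    obtain ⟨r, hr, C, hC⟩ := hb
    have hV : (↑L.lattice \ {(0 : ℂ)})ᶜ ∈ 𝓝 (0 : ℂ) := L.compl_lattice_sdiff_singleton_mem_nhds 0
    obtain ⟨ε, hε, hεV⟩ := Metric.mem_nhds_iff.1 hV
    set s : Set ℂ := ball 0 (min ε r) with hs
    have hs0 : s ∈ 𝓝 (0 : ℂ) := ball_mem_nhds _ (lt_min hε hr)
    have hnl : ∀ z ∈ s, z ≠ 0 → z ∉ L.lattice := by
      intro z hz hz0 hzl
      have h1 : z ∈ ball (0 : ℂ) ε := ball_subset_ball (min_le_left _ _) hz
      exact hεV h1 ⟨hzl, by simpa using hz0⟩
    have hds : DifferentiableOn ℂ f (s \ {0}) := by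
      apply hd.mono
      intro z hz
      have := hnl z hz.1 (by simpa using hz.2)
      rw [hmem] at this
      exact this
    have hbd : BddAbove (norm ∘ f '' (s \ {0})) := by
      refine ⟨C, ?_⟩
      rintro _ ⟨z, hz, rfl⟩
      have hz0 : z ≠ 0 := by simpa using hz.2
      have hzr : ‖z‖ < r := by
        have := hz.1
        rw [hs, mem_ball_zero_iff] at this
        exact this.trans_le (min_le_right _ _)
      exact hC z hz0 hzr
    have h1 := Complex.differentiableOn_update_limUnder_of_bddAbove hs0 hds hbd
    have h2 := h1.differentiableAt hs0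
    refine h2.congr_of_eventuallyEq ?_
    filter_upwards [hs0] with z hz
    by_cases hz0 : z = 0
    · subst hz0
      simp [hg, hc₀, L.lattice.zero_mem]
    · rw [Function.update_of_ne hz0]
      simp [hg, hnl z hz hz0]
  have hgd : Differentiable ℂ g := by
    intro z
    by_cases hz : z ∈ L.lattice
    · have h1 : g = fun w => g (w + (-z)) := by
        funext w
        exact (hgper w (-z) (L.lattice.neg_mem hz)).symm
      rw [h1]
      have h2 : DifferentiableAt ℂ g (z + (-z)) := by simpa using h0
      exact DifferentiableAt.comp z (g := g) (f := fun w => w + (-z)) h2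
        (differentiableAt_id.add_const (-z))
    · have hV : (L.lattice : Set ℂ)ᶜ ∈ 𝓝 z := L.isClosed_lattice.isOpen_compl.mem_nhds hz
      have h1 : DifferentiableAt ℂ f z := by
        refine hd.differentiableAt ?_
        filter_upwards [hV] with w hw
        have : w ∉ L.lattice := hw
        rw [hmem] at this
        exact this
      refine h1.congr_of_eventuallyEq ?_
      filter_upwards [hV] with w hw
      have : w ∉ L.lattice := hw
      simp [hg, this]
  have hbdd := (IsZLattice.isCompact_range_of_periodic L.lattice g hgd.continuous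
    (fun z w hw => hgper z w hw)).isBounded
  refine ⟨g 0, fun z hz => ?_⟩
  have h1 := hgd.apply_eq_apply_of_bounded hbdd z 0
  have h2 : z ∉ L.lattice := by rw [hmem]; exact hz
  rw [← h1]
  simp [hg, h2]

end Pool.Agent.H63.TC
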