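import Pool.Agent.H74.TC.Hlf

/-!
# Project TC: module ODE, the differential equation of `P`, from Mathlib's Weierstrass function
-/

open Complex Metric Set Filter Topology MeasureTheory

namespace Pool.Agent.H63.TC

noncomputable section

lemma ode_cubic {g₂ g₃ E1 E2 E3 X : ℂ} (h12 : E1 ≠ E2) (h13 : E1 ≠ E3) (h23 : E2 ≠ E3)
    (h1 : 4 * E1 ^ 3 - g₂ * E1 - g₃ = 0) (h2 : 4 * E2 ^ 3 - g₂ * E2 - g₃ = 0)
    (h3 : 4 * E3 ^ 3 - g₂ * E3 - g₃ = 0) :
    4 * X ^ 3 - g₂ * X - g₃ = 4 * (X - E1) * (X - E2) * (X - E3) := by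
  have a12 : 4 * (E1 ^ 2 + E1 * E2 + E2 ^ 2) - g₂ = 0 := by
    have h : (E1 - E2) * (4 * (E1 ^ 2 + E1 * E2 + E2 ^ 2) - g₂) = 0 := by
      linear_combination h1 - h2
    rcases mul_eq_zero.1 h with h | h
    · exact absurd (sub_eq_zero.1 h) h12
    · exact h
  have a13 : 4 * (E1 ^ 2 + E1 * E3 + E3 ^ 2) - g₂ = 0 := by
    have h : (E1 - E3) * (4 * (E1 ^ 2 + E1 * E3 + E3 ^ 2) - g₂) = 0 := by
      linear_combination h1 - h3
    rcases mul_eq_zero.1 h with h | h
    · exact absurd (sub_eq_zero.1 h) h13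
    · exact h
  have s : E1 + E2 + E3 = 0 := by
    have h : (E2 - E3) * (4 * (E1 + E2 + E3)) = 0 := by
      linear_combination a12 - a13
    rcases mul_eq_zero.1 h with h | h
    · exact absurd (sub_eq_zero.1 h) h23
    · simpa using h
  have e3 : E3 = -E1 - E2 := by linear_combination s
  have eg2 : g₂ = 4 * (E1 ^ 2 + E1 * E2 + E2 ^ 2) := by linear_combination -a12
  have eg3 : g₃ = 4 * E1 ^ 3 - g₂ * E1 := by linear_combination -h1
  rw [eg3, eg2, e3]
  ring

/-- `P` and Mathlib's Weierstrass function differ by a constant -/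
lemma ode_weier (hL : LioStmt) (hP : PdfStmt) (hR : PrgStmt) {τ : ℂ} (hτ : 0 < τ.im) :
    ∃ (L : PeriodPair) (κ : ℂ), (∀ z, z ∈ L.lattice ↔ Lat τ z) ∧
      ∀ z, ¬ Lat τ z → P τ z = L.weierstrassP z + κ := by
  have hind := hlf_ind hτ (a := 1) (b := 0) (c := 0) (d := 1) (by norm_num)
  have hind' : ∀ x y : ℝ, (x : ℂ) * τ + y * 1 = 0 → x = 0 ∧ y = 0 := by
    intro x y h
    apply hind x y
    rw [← h]; push_cast; ring
  have hli : LinearIndependent ℝ ![τ, 1] := by
    rw [LinearIndependent.pair_iff]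
    intro s t h
    exact hind' s t (by simpa [Complex.real_smul] using h)
  set L : PeriodPair := ⟨τ, 1, hli⟩ with hLd
  have hmem : ∀ z, z ∈ L.lattice ↔ Lat τ z := by
    intro z
    rw [PeriodPair.mem_lattice]
    constructor
    · rintro ⟨m, n, h⟩
      refine ⟨m, n, ?_⟩
      rw [← h]; simp [hLd]
    · rintro ⟨m, n, h⟩
      refine ⟨m, n, ?_⟩
      rw [h]; simp [hLd]
  have hper : ∀ z l, Lat τ l → L.weierstrassP (z + l) = L.weierstrassP z := by
    intro z l hl
    exact L.weierstrassP_add_coe z ⟨l, (hmem l).2 hl⟩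
  have l1 : Lat τ 1 := ⟨0, 1, by simp⟩
  have lτ : Lat τ τ := ⟨1, 0, by simp⟩
  have hset : ∀ z, (¬ ∃ m n : ℤ, z = m * τ + n * 1) ↔ ¬ Lat τ z := by
    intro z; simp [Lat]
  obtain ⟨c, hc⟩ := hL τ 1 hind' (fun z => P τ z - L.weierstrassP z)
    (by
      intro z
      rw [hlf_per hP hτ lτ, hper z τ lτ])
    (by
      intro z
      rw [hlf_per hP hτ l1, hper z 1 l1])
    (by
      intro z hz
      have hz' : ¬ Lat τ z := (hset z).1 hz
      have h1 := hlf_diff hP hτ hz'
      have h2 : DifferentiableAt ℂ L.weierstrassP z := by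
        refine L.differentiableOn_weierstrassP.differentiableAt ?_
        refine L.isClosed_lattice.isOpen_compl.mem_nhds ?_
        intro h
        exact hz' ((hmem z).1 h)
      exact (h1.fun_sub h2).differentiableWithinAt)
    (by
      obtain ⟨r₁, hr₁, C, hC⟩ := pole_P hR hτ
      have h1 : ContinuousAt (L.weierstrassPExcept 0) 0 := by
        have := (L.differentiableOn_weierstrassPExcept 0).differentiableAt
          (L.compl_lattice_sdiff_singleton_mem_nhds 0)
        exact this.continuousAt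
      have h2 := h1.norm.eventually_lt_const (u := ‖L.weierstrassPExcept 0 0‖ + 1) (lt_add_one _)
      obtain ⟨r₂, hr₂, h3⟩ := Metric.eventually_nhds_iff.1 h2
      refine ⟨min r₁ r₂, lt_min hr₁ hr₂, C + (‖L.weierstrassPExcept 0 0‖ + 1), fun z hz0 hz => ?_⟩
      have h4 := hC z hz0 (hz.trans_le (min_le_left _ _))
      have h5 := h3 (y := z) (by simpa using hz.trans_le (min_le_right _ _))
      have h6 := L.weierstrassPExcept_def (0 : L.lattice) z
      simp only [ZeroMemClass.coe_zero, sub_zero] at h6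
      have h7 : P τ z - L.weierstrassP z = (P τ z - 1 / z ^ 2) - L.weierstrassPExcept 0 z := by
        rw [h6]
        simp
        ring
      rw [h7]
      refine (norm_sub_le _ _).trans ?_
      linarith)
  refine ⟨L, c, hmem, fun z hz => ?_⟩
  have := hc z ((hset z).2 hz)
  rw [← this]; ring

theorem ode (hL : LioStmt) (hP : PdfStmt) (hR : PrgStmt) (hH : HlfStmt) : OdeStmt := by
  intro τ hτ z hz
  obtain ⟨L, κ, hmem, hPL⟩ := ode_weier hL hP hR hτ
  obtain ⟨n1, n2, n3⟩ := hlf_notLat hτ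
  obtain ⟨h12, h13, h23, -⟩ := hH τ hτ
  have l1 : Lat τ 1 := ⟨0, 1, by simp⟩
  have lτ : Lat τ τ := ⟨1, 0, by simp⟩
  have hz' : ¬ Lat τ z := by
    intro h
    apply hz
    have := hlf_lat_add h h
    rwa [← two_mul] at this
  -- the derivative
  have hd : deriv (P τ) z = L.derivWeierstrassP z := by
    have h1 : P τ =ᶠ[𝓝 z] fun w => L.weierstrassP w + κ := by
      have h2 : {w : ℂ | ¬ Lat τ (w + 0)} ∈ 𝓝 z := (hlf_isOpen hτ 0).mem_nhds (by simpa using hz')
      filter_upwards [h2] with w hw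
      exact hPL w (by simpa using hw)
    rw [h1.deriv_eq, deriv_add_const, L.deriv_weierstrassP]
  -- zeros of the derivative
  have hhalf : ∀ w, ¬ Lat τ w → Lat τ (2 * w) →
      4 * (P τ w - κ) ^ 3 - L.g₂ * (P τ w - κ) - L.g₃ = 0 := by
    intro w hw h2w
    have h1 : L.derivWeierstrassP w = 0 := by
      have h2 := L.derivWeierstrassP_neg w
      have h3 := L.derivWeierstrassP_add_coe (-w) ⟨2 * w, (hmem _).2 h2w⟩
      have h4 : -w + 2 * w = w := by ring
      simp only [h4] at h3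
      have h5 : 2 * L.derivWeierstrassP w = 0 := by linear_combination h2 + h3
      simpa using h5
    have h2 := L.derivWeierstrassP_sq w (fun h => hw ((hmem w).1 h))
    rw [h1] at h2
    have h3 : P τ w - κ = L.weierstrassP w := by rw [hPL w hw]; ring
    rw [h3, ← h2]; ring
  have hE1 := hhalf (τ / 2) n1 (by
    have : 2 * (τ / 2) = τ := by ring
    rw [this]; exact lτ)
  have hE2 := hhalf ((1 + τ) / 2) n2 (by
    have : 2 * ((1 + τ) / 2) = 1 + τ := by ring
    rw [this]; exact hlf_lat_add l1 lτ)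
  have hE3 := hhalf (1 / 2) n3 (by
    have : 2 * (1 / 2 : ℂ) = 1 := by ring
    rw [this]; exact l1)
  have hE := ode_cubic (X := P τ z - κ) (g₂ := L.g₂) (g₃ := L.g₃)
    (E1 := P τ (τ / 2) - κ) (E2 := P τ ((1 + τ) / 2) - κ) (E3 := P τ (1 / 2) - κ)
    (fun h => h12 (sub_left_injective h)) (fun h => h13 (sub_left_injective h))
    (fun h => h23 (sub_left_injective h)) hE1 hE2 hE3
  have h2 := L.derivWeierstrassP_sq z (fun h => hz' ((hmem z).1 h))
  have h3 : L.weierstrassP z = P τ z - κ := by rw [hPL z hz']; ring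
  rw [hd, h2, h3, hE]
  unfold e1 e2 e3
  ring

end

end Pool.Agent.H63.TC
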