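import Pool.Agent.H63.TC.Stmts

/-!
# Project TC: modules PDF and PRG, holomorphy of `P` and of its regular part
-/

open Complex Metric Set Filter Topology MeasureTheory

namespace Pool.Agent.H63.TC

noncomputable section

/-- the terms of the series -/
def pdf_T (n : ℤ) (q : ℂ × ℂ) : ℂ :=
  (Real.pi : ℂ) ^ 2 / (Complex.sin (Real.pi * (q.2 + n * q.1))) ^ 2

lemma pdf_P (q : ℂ × ℂ) : P q.1 q.2 = ∑' n : ℤ, pdf_T n q := rfl

lemma pdf_bound (h : SnbStmt) {η B : ℝ} (hB : 0 ≤ B) {q : ℂ × ℂ} (hq : η ≤ q.1.im)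
    (hz : |q.2.im| ≤ B) {n : ℤ} (hn : 2 * B + 1 ≤ |(n : ℝ)| * η) :
    ‖pdf_T n q‖ ≤ 50 * Real.exp (-(Real.pi * η) * |(n : ℝ)|) := by
  have him : (q.2 + n * q.1).im = q.2.im + n * q.1.im := by simp
  have h1 : |(n : ℝ)| * η / 2 ≤ |(q.2 + n * q.1).im| := by
    rw [him]
    have h2 : |(n : ℝ) * q.1.im| ≤ |q.2.im + n * q.1.im| + |q.2.im| := by
      have := abs_sub (q.2.im + n * q.1.im) q.2.im
      have h3 : q.2.im + n * q.1.im - q.2.im = n * q.1.im := by ring
      rw [h3] at this
      exact this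
    rw [abs_mul] at h2
    have h4 : |(n : ℝ)| * η ≤ |(n : ℝ)| * |q.1.im| :=
      mul_le_mul_of_nonneg_left (hq.trans (le_abs_self _)) (abs_nonneg _)
    linarith
  have h5 : (q.2 + n * q.1).im ≠ 0 := by
    intro h0
    rw [h0, abs_zero] at h1
    linarith
  refine ((h _ h5).2 (by linarith)).trans ?_
  have h6 : Real.exp (-2 * Real.pi * |(q.2 + n * q.1).im|) ≤
      Real.exp (-(Real.pi * η) * |(n : ℝ)|) := by
    apply Real.exp_le_exp.2
    have := Real.pi_pos
    nlinarith
  linarith

lemma pdf_summable_exp {η : ℝ} (hη : 0 < η) :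
    Summable (fun n : ℤ => 50 * Real.exp (-(Real.pi * η) * |(n : ℝ)|)) := by
  apply Summable.mul_left
  have h1 : Summable (fun n : ℕ => Real.exp (-(Real.pi * η) * |((n : ℤ) : ℝ)|)) := by
    have h2 : Summable (fun n : ℕ => Real.exp (n * (-(Real.pi * η)))) := by
      rw [Real.summable_exp_nat_mul_iff]
      have := Real.pi_pos
      have : 0 < Real.pi * η := by positivity
      linarith
    refine h2.congr (fun n => ?_)
    congr 1
    simp
    ring
  rw [summable_int_iff_summable_nat_and_neg]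
  refine ⟨h1, ?_⟩
  refine h1.congr (fun n => ?_)
  simp

lemma pdf_eventually {η B : ℝ} (hη : 0 < η) :
    ∀ᶠ n : ℤ in cofinite, 2 * B + 1 ≤ |(n : ℝ)| * η := by
  have h1 : Tendsto (fun n : ℤ => |(n : ℝ)| * η) cofinite atTop := by
    apply Tendsto.atTop_mul_const hη
    have h2 := Int.tendsto_coe_cofinite
    have h3 : Tendsto (fun x : ℝ => |x|) (cocompact ℝ) atTop := by
      have := tendsto_norm_cocompact_atTop (E := ℝ)
      exact this
    exact h3.comp h2
  exact h1.eventually_ge_atTop _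

lemma pdf_summable (h : SnbStmt) {q : ℂ × ℂ} (hq : 0 < q.1.im) :
    Summable (fun n : ℤ => pdf_T n q) := by
  refine Summable.of_norm_bounded_eventually (pdf_summable_exp hq) ?_
  filter_upwards [pdf_eventually (B := |q.2.im|) hq] with n hn
  exact pdf_bound h (abs_nonneg _) le_rfl le_rfl hn

/-- general statement on partial sums over a set of indices -/
lemma pdf_gen (h : SnbStmt) (hL : LihStmt) (S : Set ℤ) (U : Set (ℂ × ℂ)) (hU : IsOpen U)
    (him : ∀ q ∈ U, 0 < q.1.im)
    (hreg : ∀ q ∈ U, ∀ n ∈ S, Complex.sin (Real.pi * (q.2 + n * q.1)) ≠ 0) :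
    DifferentiableOn ℂ (fun q : ℂ × ℂ => ∑' n : ℤ, S.indicator (fun n => pdf_T n q) n) U := by
  intro q₀ hq₀
  -- a small closed ball
  have hη : 0 < q₀.1.im / 2 := by have := him q₀ hq₀; linarith
  set η := q₀.1.im / 2 with hηd
  set B := |q₀.2.im| + 1 with hBd
  obtain ⟨r₁, hr₁, hr₁U⟩ := Metric.nhds_basis_closedBall.mem_iff.1 (hU.mem_nhds hq₀)
  set r := min r₁ (min η 1) with hrd
  have hr : 0 < r := lt_min hr₁ (lt_min hη one_pos)
  have hrU : closedBall q₀ r ⊆ U := (closedBall_subset_closedBall (min_le_left _ _)).trans hr₁U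
  have hK : IsCompact (closedBall q₀ r) := isCompact_closedBall _ _
  have hKim : ∀ q ∈ closedBall q₀ r, η ≤ q.1.im ∧ |q.2.im| ≤ B := by
    intro q hq
    rw [mem_closedBall, dist_eq_norm] at hq
    have h1 : ‖(q - q₀).1‖ ≤ r := (norm_fst_le _).trans hq
    have h2 : ‖(q - q₀).2‖ ≤ r := (norm_snd_le _).trans hq
    have h3 := (Complex.abs_im_le_norm (q - q₀).1).trans h1
    have h4 := (Complex.abs_im_le_norm (q - q₀).2).trans h2
    have hr1 : r ≤ η := (min_le_right _ _).trans (min_le_left _ _)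
    have hr2 : r ≤ 1 := (min_le_right _ _).trans (min_le_right _ _)
    simp only [Prod.fst_sub, Prod.snd_sub, Complex.sub_im] at h3 h4
    constructor
    · have := (abs_le.1 h3).1
      linarith
    · have := abs_sub_abs_le_abs_sub q.2.im q₀.2.im
      linarith
  -- the terms
  set T : ℤ → ℂ × ℂ → ℂ := fun n q => S.indicator (fun n => pdf_T n q) n with hT
  have hTd : ∀ n, DifferentiableOn ℂ (T n) U := by
    intro n
    by_cases hn : n ∈ S
    · have : T n = pdf_T n := by
        funext q; simp [hT, hn]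
      rw [this]
      intro q hq
      have h1 := hreg q hq n hn
      unfold pdf_T
      have h2 : DifferentiableAt ℂ
          (fun q : ℂ × ℂ => (Complex.sin (Real.pi * (q.2 + n * q.1))) ^ 2) q := by
        fun_prop
      have h3 : DifferentiableAt ℂ (fun _ : ℂ × ℂ => (Real.pi : ℂ) ^ 2) q :=
        differentiableAt_const _
      simp only [div_eq_mul_inv]
      exact (h3.mul (h2.fun_inv (pow_ne_zero 2 h1))).differentiableWithinAt
    · have : T n = fun _ => 0 := by
        funext q; simp [hT, hn]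
      rw [this]
      exact differentiableOn_const _
  have hC : ∀ n, ∃ C, ∀ q ∈ closedBall q₀ r, ‖T n q‖ ≤ C := by
    intro n
    exact hK.exists_bound_of_continuousOn ((hTd n).continuousOn.mono hrU)
  choose C hC using hC
  have hfin : {n : ℤ | ¬ (2 * B + 1 ≤ |(n : ℝ)| * η)}.Finite := by
    have := pdf_eventually (B := B) hη
    exact this
  set u : ℤ → ℝ := fun n => {n : ℤ | ¬ (2 * B + 1 ≤ |(n : ℝ)| * η)}.indicator (fun n => |C n|) n +
    50 * Real.exp (-(Real.pi * η) * |(n : ℝ)|) with hu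
  have husum : Summable u := by
    refine Summable.add ?_ (pdf_summable_exp hη)
    exact summable_of_hasFiniteSupport (hfin.subset Set.support_indicator_subset)
  have hTu : ∀ n, ∀ q ∈ closedBall q₀ r, ‖T n q‖ ≤ u n := by
    intro n q hq
    by_cases hn : 2 * B + 1 ≤ |(n : ℝ)| * η
    · have h1 : u n = 50 * Real.exp (-(Real.pi * η) * |(n : ℝ)|) := by
        simp only [hu, Set.indicator]
        rw [if_neg (by simpa using hn), zero_add]
      rw [h1]
      have h2 := pdf_bound h (by positivity) (hKim q hq).1 (hKim q hq).2 hn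
      refine le_trans ?_ h2
      simp only [hT]
      exact norm_indicator_le_norm_self _ _
    · have h1 : u n = |C n| + 50 * Real.exp (-(Real.pi * η) * |(n : ℝ)|) := by
        simp only [hu, Set.indicator]
        rw [if_pos (by simpa using hn)]
      rw [h1]
      have h2 := hC n q hq
      have h3 := le_abs_self (C n)
      have h4 : 0 < 50 * Real.exp (-(Real.pi * η) * |(n : ℝ)|) := by positivity
      linarith
  have hunif := tendstoUniformlyOn_tsum husum (s := ball q₀ r) (f := T)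
    (fun n q hq => hTu n q (ball_subset_closedBall hq))
  have hd := hL ℂ (Finset ℤ) atTop (fun t q => ∑ n ∈ t, T n q) (fun q => ∑' n, T n q)
    (ball q₀ r) inferInstance isOpen_ball
    (Eventually.of_forall (fun t => DifferentiableOn.fun_sum (fun n _ =>
      (hTd n).mono (ball_subset_closedBall.trans hrU))))
    hunif.tendstoLocallyUniformlyOn
  exact (hd.differentiableAt (ball_mem_nhds _ hr)).differentiableWithinAt

lemma pdf_isOpen_YY : IsOpen YY := by
  have h1 : IsOpen {q : ℂ × ℂ | 0 < q.1.im} :=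
    isOpen_lt continuous_const (Complex.continuous_im.comp continuous_fst)
  -- near q₀, only finitely many conditions matter; use distance
  rw [isOpen_iff_mem_nhds]
  rintro ⟨τ₀, z₀⟩ ⟨hτ, hz⟩
  simp only at hτ hz
  -- z = m τ + n : the real coordinates are continuous functions of (τ, z)
  set α : ℂ × ℂ → ℝ := fun q => q.2.im / q.1.im with hα
  set β : ℂ × ℂ → ℝ := fun q => q.2.re - q.2.im / q.1.im * q.1.re with hβ
  have hcα : ContinuousAt α (τ₀, z₀) := by
    apply ContinuousAt.div
    · exact (Complex.continuous_im.comp continuous_snd).continuousAt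
    · exact (Complex.continuous_im.comp continuous_fst).continuousAt
    · exact hτ.ne'
  have hcβ : ContinuousAt β (τ₀, z₀) := by
    apply ContinuousAt.sub
    · exact (Complex.continuous_re.comp continuous_snd).continuousAt
    · exact hcα.mul (Complex.continuous_re.comp continuous_fst).continuousAt
  have hlat : ∀ q : ℂ × ℂ, 0 < q.1.im → (Lat q.1 q.2 ↔ (α q, β q) ∈
      Set.range (fun m : ℤ × ℤ => ((m.1 : ℝ), (m.2 : ℝ)))) := by
    intro q hq
    constructor
    · rintro ⟨m, n, h⟩
      refine ⟨(m, n), ?_⟩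
      have h1 : q.2.im = m * q.1.im := by rw [h]; simp
      have h2 : q.2.re = m * q.1.re + n := by rw [h]; simp
      have h3 : q.2.im / q.1.im = m := by rw [h1]; field_simp
      simp only [hα, hβ, h3]
      rw [h2]; ext <;> simp
    · rintro ⟨⟨m, n⟩, h⟩
      simp only [hα, hβ, Prod.mk.injEq] at h
      obtain ⟨ha, hb⟩ := h
      refine ⟨m, n, ?_⟩
      have h1 : q.2.im = m * q.1.im := by rw [ha]; field_simp
      rw [← ha] at hb
      apply Complex.ext
      · simp; linarith
      · simp; exact h1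
  have hclosed : IsClosed (Set.range (fun m : ℤ × ℤ => ((m.1 : ℝ), (m.2 : ℝ)))) := by
    have h2 : IsClosed (Set.range ((↑) : ℤ → ℝ)) := Int.isClosedEmbedding_coe_real.isClosed_range
    have h3 : Set.range (fun m : ℤ × ℤ => ((m.1 : ℝ), (m.2 : ℝ))) =
        (Set.range ((↑) : ℤ → ℝ)) ×ˢ (Set.range ((↑) : ℤ → ℝ)) := by
      ext ⟨x, y⟩
      simp
    rw [h3]
    exact h2.prod h2
  have h4 : (α (τ₀, z₀), β (τ₀, z₀)) ∈ (Set.range (fun m : ℤ × ℤ => ((m.1 : ℝ), (m.2 : ℝ))))ᶜ := by
    intro h5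
    exact hz ((hlat (τ₀, z₀) hτ).2 h5)
  have h6 : ∀ᶠ q in 𝓝 (τ₀, z₀), (α q, β q) ∈
      (Set.range (fun m : ℤ × ℤ => ((m.1 : ℝ), (m.2 : ℝ))))ᶜ :=
    (hcα.prodMk hcβ).eventually (hclosed.isOpen_compl.mem_nhds h4)
  have h7 : ∀ᶠ q in 𝓝 (τ₀, z₀), 0 < q.1.im := h1.mem_nhds hτ
  filter_upwards [h6, h7] with q h6 h7
  exact ⟨h7, fun hl => h6 ((hlat q h7).1 hl)⟩

lemma pdf_sin_ne_zero {τ z : ℂ} {n : ℤ} (h : ∀ k : ℤ, z + n * τ ≠ k) :
    Complex.sin (Real.pi * (z + n * τ)) ≠ 0 := by
  intro h0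
  rw [Complex.sin_eq_zero_iff] at h0
  obtain ⟨k, hk⟩ := h0
  apply h k
  have hpi : (Real.pi : ℂ) ≠ 0 := by exact_mod_cast Real.pi_ne_zero
  have : (Real.pi : ℂ) * (z + n * τ) = Real.pi * k := by rw [hk]; ring
  exact mul_left_cancel₀ hpi this

theorem pdf (h : SnbStmt) (hL : LihStmt) : PdfStmt := by
  refine ⟨?_, ?_⟩
  · have h1 := pdf_gen h hL Set.univ YY pdf_isOpen_YY (fun q hq => hq.1) (by
      intro q hq n _
      apply pdf_sin_ne_zero
      intro k hk
      apply hq.2
      refine ⟨-n, k, ?_⟩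
      push_cast
      rw [← hk]; ring)
    refine h1.congr (fun q _ => ?_)
    simp [pdf_P]
  · intro τ _ z
    refine ⟨?_, ?_, ?_⟩
    · unfold P
      refine tsum_congr (fun n => ?_)
      have : (Real.pi : ℂ) * (z + 1 + n * τ) = Real.pi * (z + n * τ) + Real.pi := by ring
      rw [this, Complex.sin_add_pi, neg_sq]
    · unfold P
      rw [← (Equiv.addRight (1 : ℤ)).tsum_eq
        (fun n : ℤ => (Real.pi : ℂ) ^ 2 / (Complex.sin (Real.pi * (z + n * τ))) ^ 2)]
      refine tsum_congr (fun n => ?_)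
      simp only [Equiv.coe_addRight]
      push_cast
      have : z + τ + n * τ = z + (n + 1) * τ := by ring
      rw [this]
    · unfold P
      rw [← (Equiv.neg ℤ).tsum_eq
        (fun n : ℤ => (Real.pi : ℂ) ^ 2 / (Complex.sin (Real.pi * (z + n * τ))) ^ 2)]
      refine tsum_congr (fun n => ?_)
      simp only [Equiv.neg_apply]
      push_cast
      have : (Real.pi : ℂ) * (-z + n * τ) = -(Real.pi * (z + -n * τ)) := by ring
      rw [this, Complex.sin_neg, neg_sq]

lemma prg_split (h : SnbStmt) {q : ℂ × ℂ} (hq : 0 < q.1.im) :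
    P q.1 q.2 - (Real.pi : ℂ) ^ 2 / (Complex.sin (Real.pi * q.2)) ^ 2 =
      ∑' n : ℤ, ({0}ᶜ : Set ℤ).indicator (fun n => pdf_T n q) n := by
  have hs := pdf_summable h hq
  rw [pdf_P, hs.tsum_eq_add_tsum_ite 0]
  have h0 : pdf_T 0 q = (Real.pi : ℂ) ^ 2 / (Complex.sin (Real.pi * q.2)) ^ 2 := by
    simp [pdf_T]
  rw [h0, add_sub_cancel_left]
  refine tsum_congr (fun n => ?_)
  by_cases hn : n = 0 <;> simp [hn]

theorem prg (h : SnbStmt) (hL : LihStmt) : PrgStmt := by
  have hopen : IsOpen {q : ℂ × ℂ | 0 < q.1.im ∧ |q.2.im| < q.1.im} := by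
    refine IsOpen.inter ?_ ?_
    · exact isOpen_lt continuous_const (Complex.continuous_im.comp continuous_fst)
    · exact isOpen_lt (continuous_abs.comp (Complex.continuous_im.comp continuous_snd))
        (Complex.continuous_im.comp continuous_fst)
  have h1 := pdf_gen h hL ({0}ᶜ) _ hopen (fun q hq => hq.1) (by
    intro q hq n hn
    apply pdf_sin_ne_zero
    intro k hk
    have h2 : q.2.im + n * q.1.im = 0 := by
      have := congrArg Complex.im hk
      simpa using this
    have h3 : (1 : ℝ) ≤ |(n : ℝ)| := by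
      have hn0 : n ≠ 0 := by simpa using hn
      exact_mod_cast Int.one_le_abs hn0
    have h4 : |q.2.im| = |(n : ℝ)| * q.1.im := by
      have : q.2.im = -(n * q.1.im) := by linarith
      rw [this, abs_neg, abs_mul, abs_of_pos hq.1]
    have h5 := hq.2
    have h6 := hq.1
    nlinarith)
  refine h1.congr (fun q hq => ?_)
  exact prg_split h hq.1

end

end Pool.Agent.H63.TC
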