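import Pool.Agent.H74.TC.Hlf

/-!
# Project TC: module POL, the behaviour of `yy` at its pole
-/

open Complex Metric Set Filter Topology MeasureTheory

namespace Pool.Agent.H63.TC

noncomputable section

/-- the regular part -/
def pol_R (q : ℂ × ℂ) : ℂ := P q.1 q.2 - (Real.pi : ℂ) ^ 2 / (Complex.sin (Real.pi * q.2)) ^ 2

lemma pol_R_open : IsOpen {q : ℂ × ℂ | 0 < q.1.im ∧ |q.2.im| < q.1.im} := by
  refine IsOpen.inter ?_ ?_
  · exact isOpen_lt continuous_const (Complex.continuous_im.comp continuous_fst)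
  · exact isOpen_lt (continuous_abs.comp (Complex.continuous_im.comp continuous_snd))
      (Complex.continuous_im.comp continuous_fst)

/-- `z² P(z)` extends analytically -/
lemma pol_F (hR : PrgStmt) {τ : ℂ} (hτ : 0 < τ.im) : ∃ F : ℂ → ℂ, AnalyticAt ℂ F 0 ∧ F 0 = 1 ∧
    ∃ r > 0, ∀ z : ℂ, z ≠ 0 → ‖z‖ < r → P τ z = F z / z ^ 2 := by
  have hpi : (Real.pi : ℂ) ≠ 0 := by exact_mod_cast Real.pi_ne_zero
  set s : ℂ → ℂ := fun z => Complex.sin (Real.pi * z) with hs
  have hsa : AnalyticAt ℂ s 0 := by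
    have : Differentiable ℂ s := by fun_prop
    exact this.analyticAt 0
  have hs0 : s 0 = 0 := by simp [hs]
  have hds : deriv s 0 = Real.pi := by
    have h1 : HasDerivAt s (Complex.cos (Real.pi * 0) * (Real.pi * 1)) 0 := by
      have h2 : HasDerivAt (fun z : ℂ => (Real.pi : ℂ) * z) (Real.pi * 1) 0 :=
        (hasDerivAt_id (0 : ℂ)).const_mul _
      exact h2.csin
    have := h1.deriv
    simpa using this
  obtain ⟨p, hp⟩ := hsa
  have hφa : AnalyticAt ℂ (dslope s 0) 0 := hp.has_fpower_series_dslope_fslope.analyticAt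
  have hφ0 : dslope s 0 0 = Real.pi := by rw [dslope_same, hds]
  have hφ : ∀ z, z ≠ 0 → dslope s 0 z = s z / z := by
    intro z hz
    rw [dslope_of_ne _ hz, slope_def_field, hs0]
    simp
  have hRa : AnalyticAt ℂ (fun z => pol_R (τ, z)) 0 := by
    have ho : IsOpen {z : ℂ | |z.im| < τ.im} :=
      isOpen_lt (continuous_abs.comp Complex.continuous_im) continuous_const
    refine DifferentiableOn.analyticAt (s := {z : ℂ | |z.im| < τ.im}) ?_
      (ho.mem_nhds (by simp [hτ]))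
    intro z hz
    have h1 : DifferentiableAt ℂ pol_R (τ, z) :=
      hR.differentiableAt (pol_R_open.mem_nhds ⟨hτ, hz⟩)
    have h2 : DifferentiableAt ℂ (fun z : ℂ => (τ, z)) z := by fun_prop
    exact (h1.comp z h2).differentiableWithinAt
  refine ⟨fun z => (Real.pi : ℂ) ^ 2 * ((dslope s 0 z) ^ 2)⁻¹ + z ^ 2 * pol_R (τ, z), ?_, ?_, ?_⟩
  · refine AnalyticAt.add ?_ ((analyticAt_id.pow 2).mul hRa)
    apply analyticAt_const.mul
    apply (hφa.pow 2).inv
    rw [Pi.pow_apply, hφ0]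
    exact pow_ne_zero 2 hpi
  · simp only [hφ0]
    field_simp
    ring
  · obtain ⟨r, hr, C, h⟩ := pole_sin
    refine ⟨r, hr, fun z hz0 hz => ?_⟩
    have h1 : s z ≠ 0 := (h z hz0 hz).1
    have h2 : pol_R (τ, z) = P τ z - (Real.pi : ℂ) ^ 2 / (s z) ^ 2 := rfl
    simp only
    rw [h2, hφ z hz0]
    field_simp
    ring

lemma pol_P_tendsto (hR : PrgStmt) {τ : ℂ} (hτ : 0 < τ.im) :
    Tendsto (fun z : ℂ => z ^ 2 * P τ z) (𝓝[≠] 0) (𝓝 1) := by
  obtain ⟨F, hF, hF0, r, hr, h⟩ := pol_F hR hτ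
  have h1 : Tendsto F (𝓝[≠] 0) (𝓝 1) := by
    have := hF.continuousAt.tendsto
    rw [hF0] at this
    exact this.mono_left nhdsWithin_le_nhds
  refine h1.congr' ?_
  have h2 : ball (0 : ℂ) r ∈ 𝓝[≠] (0 : ℂ) := mem_nhdsWithin_of_mem_nhds (ball_mem_nhds _ hr)
  filter_upwards [h2, self_mem_nhdsWithin] with z hz hz0
  have hz0' : z ≠ 0 := hz0
  rw [h z hz0' (by simpa using hz)]
  field_simp

lemma pol_dP_tendsto (hR : PrgStmt) {τ : ℂ} (hτ : 0 < τ.im) :
    Tendsto (fun z : ℂ => z ^ 3 * deriv (P τ) z) (𝓝[≠] 0) (𝓝 (-2)) := by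
  obtain ⟨F, hF, hF0, r, hr, h⟩ := pol_F hR hτ
  have hFd : ContinuousAt (deriv F) 0 := hF.deriv.continuousAt
  have h1 : Tendsto (fun z => z * deriv F z - 2 * F z) (𝓝[≠] 0) (𝓝 (-2)) := by
    have h2 : ContinuousAt (fun z => z * deriv F z - 2 * F z) 0 :=
      (continuousAt_id.mul hFd).sub (continuousAt_const.mul hF.continuousAt)
    have h3 := h2.tendsto
    simp only [hF0, zero_mul, zero_sub, mul_one] at h3
    exact h3.mono_left nhdsWithin_le_nhds
  refine h1.congr' ?_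
  have h2 : ball (0 : ℂ) r ∈ 𝓝[≠] (0 : ℂ) := mem_nhdsWithin_of_mem_nhds (ball_mem_nhds _ hr)
  have h3 : ∀ᶠ z in 𝓝[≠] (0 : ℂ), AnalyticAt ℂ F z :=
    hF.eventually_analyticAt.filter_mono nhdsWithin_le_nhds
  filter_upwards [h2, self_mem_nhdsWithin, h3] with z hz hz0 hFz
  have hz0' : z ≠ 0 := hz0
  have h4 : P τ =ᶠ[𝓝 z] fun w => F w / w ^ 2 := by
    have h5 : ball (0 : ℂ) r ∈ 𝓝 z := isOpen_ball.mem_nhds hz
    have h6 : ∀ᶠ w in 𝓝 z, w ≠ 0 := isOpen_ne.mem_nhds hz0'
    filter_upwards [h5, h6] with w hw hw0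
    exact h w hw0 (by simpa using hw)
  rw [h4.deriv_eq]
  have h7 : HasDerivAt (fun w => F w / w ^ 2)
      ((deriv F z * z ^ 2 - F z * (2 * z)) / (z ^ 2) ^ 2) z := by
    have h8 : HasDerivAt (fun w : ℂ => w ^ 2) (2 * z) z := by
      simpa using hasDerivAt_pow 2 z
    exact hFz.differentiableAt.hasDerivAt.fun_div h8 (pow_ne_zero 2 hz0')
  rw [h7.deriv]
  field_simp

lemma pol_half_tendsto : Tendsto (fun u : ℂ => u / 2) (𝓝[≠] 0) (𝓝[≠] 0) := by
  refine tendsto_nhdsWithin_iff.2 ⟨?_, ?_⟩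
  · have : Continuous (fun u : ℂ => u / 2) := by fun_prop
    have h := this.tendsto 0
    simp only [zero_div] at h
    exact h.mono_left nhdsWithin_le_nhds
  · filter_upwards [self_mem_nhdsWithin] with u hu
    have : u ≠ 0 := hu
    simpa using this

lemma pol_e_diff (hP : PdfStmt) {τ : ℂ} (hτ : 0 < τ.im) :
    DifferentiableAt ℂ e1 τ ∧ DifferentiableAt ℂ e2 τ := by
  obtain ⟨n1, n2, -⟩ := hlf_notLat hτ
  constructor
  · have h1 : DifferentiableAt ℂ (fun q : ℂ × ℂ => P q.1 q.2) (τ, τ / 2) :=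
      hP.1.differentiableAt (pdf_isOpen_YY.mem_nhds ⟨hτ, n1⟩)
    have h2 : DifferentiableAt ℂ (fun t : ℂ => (t, t / 2)) τ := by fun_prop
    have h3 : DifferentiableAt ℂ (fun t : ℂ => P t (t / 2)) τ := by
      have h4 := h1.comp τ h2
      simpa only [Function.comp_def] using h4
    exact h3
  · have h1 : DifferentiableAt ℂ (fun q : ℂ × ℂ => P q.1 q.2) (τ, (1 + τ) / 2) :=
      hP.1.differentiableAt (pdf_isOpen_YY.mem_nhds ⟨hτ, n2⟩)
    have h2 : DifferentiableAt ℂ (fun t : ℂ => (t, (1 + t) / 2)) τ := by fun_prop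
    have h3 : DifferentiableAt ℂ (fun t : ℂ => P t ((1 + t) / 2)) τ := by
      have h4 := h1.comp τ h2
      simpa only [Function.comp_def] using h4
    exact h3

theorem pol (hP : PdfStmt) (hR : PrgStmt) (hH : HlfStmt) : PolStmt := by
  intro τ hτ
  obtain ⟨h12, -, -, -⟩ := hH τ hτ
  have hD : e2 τ - e1 τ ≠ 0 := sub_ne_zero.2 h12.symm
  set D := e2 τ - e1 τ with hDd
  -- first limit
  have L1 : Tendsto (fun u : ℂ => u ^ 2 * yy τ u) (𝓝[≠] 0) (𝓝 (4 / D)) := by
    have h1 := (pol_P_tendsto hR hτ).comp pol_half_tendsto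
    have h2 : Tendsto (fun u : ℂ => u ^ 2 * e1 τ) (𝓝[≠] 0) (𝓝 0) := by
      have : Continuous (fun u : ℂ => u ^ 2 * e1 τ) := by fun_prop
      have h := this.tendsto 0
      simp only [ne_eq, OfNat.ofNat_ne_zero, not_false_eq_true, zero_pow, zero_mul] at h
      exact h.mono_left nhdsWithin_le_nhds
    have h3 := ((h1.const_mul 4).sub h2).div_const D
    rw [mul_one, sub_zero] at h3
    refine h3.congr (fun u => ?_)
    simp only [Function.comp, yy, hDd]
    ring
  refine ⟨L1, ?_, ?_⟩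
  · -- second limit
    have h1 := (pol_dP_tendsto hR hτ).comp pol_half_tendsto
    have h3 := (h1.const_mul 4).div_const D
    have h4 : (4 * (-2) / D : ℂ) = -8 / D := by ring
    rw [h4] at h3
    refine h3.congr' ?_
    obtain ⟨r, hr, hrl⟩ := hlf_small hP hR hτ
    have h5 : ball (0 : ℂ) r ∈ 𝓝[≠] (0 : ℂ) := mem_nhdsWithin_of_mem_nhds (ball_mem_nhds _ hr)
    filter_upwards [h5, self_mem_nhdsWithin] with u hu hu0
    have hu0' : u ≠ 0 := hu0
    have hu2 : ¬ Lat τ (u / 2) := by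
      apply hrl _ (by simpa using hu0')
      rw [norm_div]
      have : ‖u‖ < r := by simpa using hu
      have h6 : ‖(2 : ℂ)‖ = 2 := by simp
      rw [h6]
      have := norm_nonneg u
      linarith
    have h7 : HasDerivAt (P τ) (deriv (P τ) (u / 2)) (u / 2) := (hlf_diff hP hτ hu2).hasDerivAt
    have h8 : HasDerivAt (fun u : ℂ => u / 2) (1 / 2) u := by
      simpa using (hasDerivAt_id u).div_const 2
    have h9 : HasDerivAt (fun u : ℂ => P τ (u / 2)) (deriv (P τ) (u / 2) * (1 / 2)) u := by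
      have := h7.comp u h8
      simpa only [Function.comp_def] using this
    have h10 : HasDerivAt (yy τ) (deriv (P τ) (u / 2) * (1 / 2) / D) u := by
      have := (h9.sub_const (e1 τ)).div_const D
      exact this
    simp only [Function.comp, yu]
    rw [h10.deriv]
    field_simp
    ring
  · -- third bound
    -- bound of the regular part near (τ, 0)
    have hRc : ContinuousAt pol_R (τ, 0) :=
      (hR.differentiableAt (pol_R_open.mem_nhds (by simp [hτ]))).continuousAt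
    have h1 := hRc.norm.eventually_lt_const (u := ‖pol_R (τ, 0)‖ + 1) (lt_add_one _)
    have h2 : {q : ℂ × ℂ | 0 < q.1.im ∧ |q.2.im| < q.1.im} ∈ 𝓝 (τ, (0 : ℂ)) :=
      pol_R_open.mem_nhds (by simp [hτ])
    obtain ⟨r₁, hr₁, h3⟩ := Metric.nhds_basis_closedBall.mem_iff.1 (inter_mem h1 h2)
    set M := ‖pol_R (τ, 0)‖ + 1 with hM
    -- derivative of the regular part
    have h4 : ∀ z : ℂ, ‖z‖ < r₁ → DifferentiableAt ℂ (fun t => pol_R (t, z)) τ ∧
        ‖deriv (fun t => pol_R (t, z)) τ‖ ≤ M / r₁ := by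
      intro z hz
      have h5 : ∀ t ∈ closedBall τ r₁, DifferentiableAt ℂ (fun t => pol_R (t, z)) t := by
        intro t ht
        have h6 : (t, z) ∈ closedBall (τ, (0 : ℂ)) r₁ := by
          rw [mem_closedBall, Prod.dist_eq]
          refine max_le ht ?_
          simpa using hz.le
        have h7 : DifferentiableAt ℂ pol_R (t, z) :=
          hR.differentiableAt (pol_R_open.mem_nhds (h3 h6).2)
        have h8 : DifferentiableAt ℂ (fun t : ℂ => (t, z)) t := by fun_prop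
        exact h7.comp t h8
      refine ⟨h5 τ (mem_closedBall_self hr₁.le), ?_⟩
      apply Complex.norm_deriv_le_of_forall_mem_sphere_norm_le hr₁
      · refine DifferentiableOn.diffContOnCl (fun t ht => ?_)
        rw [closure_ball _ hr₁.ne'] at ht
        exact (h5 t ht).differentiableWithinAt
      · intro t ht
        have h6 : (t, z) ∈ closedBall (τ, (0 : ℂ)) r₁ := by
          rw [mem_closedBall, Prod.dist_eq]
          refine max_le (sphere_subset_closedBall ht) ?_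
          simpa using hz.le
        exact (h3 h6).1.le
    -- bound of u² P(u/2)
    obtain ⟨r₂, hr₂, C₂, hC₂⟩ := pole_P hR hτ
    obtain ⟨he1, he2⟩ := pol_e_diff hP hτ
    set a := deriv e1 τ with ha
    set b := deriv e2 τ with hb
    refine ⟨min 1 (min r₁ r₂), by positivity,
      (M / r₁ + ‖a‖) / ‖D‖ + (4 + |C₂| + ‖e1 τ‖) * ‖b - a‖ / ‖D‖ ^ 2, fun u hu0 hu => ?_⟩
    have hu1 : ‖u‖ < 1 := hu.trans_le (min_le_left _ _)
    have hn2 : ‖u / 2‖ ≤ ‖u‖ := by
      rw [norm_div]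
      have h6 : ‖(2 : ℂ)‖ = 2 := by simp
      rw [h6]
      have := norm_nonneg u
      linarith
    have hr1 : ‖u / 2‖ < r₁ :=
      hn2.trans_lt (hu.trans_le ((min_le_right _ _).trans (min_le_left _ _)))
    have hr2 : ‖u / 2‖ < r₂ :=
      hn2.trans_lt (hu.trans_le ((min_le_right _ _).trans (min_le_right _ _)))
    obtain ⟨hRd, hRb⟩ := h4 (u / 2) hr1
    have hu20 : u / 2 ≠ 0 := by simpa using hu0
    -- derivative of yy in τ
    have h5 : HasDerivAt (fun t => P t (u / 2)) (deriv (fun t => pol_R (t, u / 2)) τ) τ := by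
      have h6 : HasDerivAt (fun t => pol_R (t, u / 2) +
          (Real.pi : ℂ) ^ 2 / (Complex.sin (Real.pi * (u / 2))) ^ 2)
          (deriv (fun t => pol_R (t, u / 2)) τ) τ := hRd.hasDerivAt.add_const _
      have h7 : (fun t => pol_R (t, u / 2) +
          (Real.pi : ℂ) ^ 2 / (Complex.sin (Real.pi * (u / 2))) ^ 2) = fun t => P t (u / 2) := by
        funext t
        simp only [pol_R]
        ring
      rw [h7] at h6
      exact h6
    have h8 : HasDerivAt (fun t => yy t u)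
        (((deriv (fun t => pol_R (t, u / 2)) τ - a) * D - (P τ (u / 2) - e1 τ) * (b - a)) /
          D ^ 2) τ := by
      have h9 := (h5.fun_sub he1.hasDerivAt).fun_div (he2.hasDerivAt.fun_sub he1.hasDerivAt) hD
      exact h9
    have h10 : yt (τ, u) = (((deriv (fun t => pol_R (t, u / 2)) τ - a) * D -
        (P τ (u / 2) - e1 τ) * (b - a)) / D ^ 2) := h8.deriv
    rw [h10]
    have h11 : u ^ 2 * (((deriv (fun t => pol_R (t, u / 2)) τ - a) * D -
        (P τ (u / 2) - e1 τ) * (b - a)) / D ^ 2) =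
        u ^ 2 * ((deriv (fun t => pol_R (t, u / 2)) τ - a) / D) -
          (u ^ 2 * (P τ (u / 2) - e1 τ)) * (b - a) / D ^ 2 := by
      field_simp
    rw [h11]
    refine (norm_sub_le _ _).trans ?_
    have hu2 : ‖u‖ ^ 2 ≤ 1 := by
      have := norm_nonneg u
      nlinarith
    have hDn : 0 < ‖D‖ := norm_pos_iff.2 hD
    apply add_le_add
    · rw [norm_mul, norm_pow, norm_div]
      have h12 : ‖deriv (fun t => pol_R (t, u / 2)) τ - a‖ ≤ M / r₁ + ‖a‖ :=
        (norm_sub_le _ _).trans (by linarith)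
      have h13 : ‖deriv (fun t => pol_R (t, u / 2)) τ - a‖ / ‖D‖ ≤ (M / r₁ + ‖a‖) / ‖D‖ :=
        div_le_div_of_nonneg_right h12 hDn.le
      have h14 : 0 ≤ ‖deriv (fun t => pol_R (t, u / 2)) τ - a‖ / ‖D‖ := by positivity
      nlinarith
    · rw [norm_div, norm_mul, norm_pow]
      apply div_le_div_of_nonneg_right _ (by positivity)
      apply mul_le_mul_of_nonneg_right _ (norm_nonneg _)
      -- ‖u² (P - e1)‖ ≤ 4 + |C₂| + ‖e1‖
      have h15 := hC₂ (u / 2) hu20 hr2
      have h16 : u ^ 2 * (P τ (u / 2) - e1 τ) =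
          4 + u ^ 2 * (P τ (u / 2) - 1 / (u / 2) ^ 2) - u ^ 2 * e1 τ := by
        field_simp
        ring
      rw [h16]
      refine (norm_sub_le _ _).trans ?_
      have h17 : ‖4 + u ^ 2 * (P τ (u / 2) - 1 / (u / 2) ^ 2)‖ ≤ 4 + |C₂| := by
        refine (norm_add_le _ _).trans ?_
        have h18 : ‖(4 : ℂ)‖ = 4 := by simp
        rw [h18, norm_mul, norm_pow]
        have h19 : ‖u‖ ^ 2 * ‖P τ (u / 2) - 1 / (u / 2) ^ 2‖ ≤ 1 * |C₂| :=
          mul_le_mul hu2 (h15.trans (le_abs_self _)) (norm_nonneg _) (by norm_num)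
        linarith
      have h20 : ‖u ^ 2 * e1 τ‖ ≤ ‖e1 τ‖ := by
        rw [norm_mul, norm_pow]
        have := norm_nonneg (e1 τ)
        nlinarith
      linarith

end

end Pool.Agent.H63.TC
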