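import Pool.Agent.H63.TC.Stmts

/-!
# Project TC: module SNB, the size of the terms of the series
-/

open Complex Metric Set Filter Topology MeasureTheory

namespace Pool.Agent.H63.TC

lemma snb_normSq_sin (x y : ℝ) :
    Complex.normSq (Complex.sin (x + y * I)) = (Real.sin x) ^ 2 + (Real.sinh y) ^ 2 := by
  rw [Complex.sin_add_mul_I]
  have h1 : Complex.sin x * Complex.cosh y + Complex.cos x * Complex.sinh y * I =
      ((Real.sin x * Real.cosh y : ℝ) : ℂ) + ((Real.cos x * Real.sinh y : ℝ) : ℂ) * I := by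
    push_cast; ring
  rw [h1, Complex.normSq_add_mul_I]
  have h2 := Real.cosh_sq y
  have h3 := Real.sin_sq_add_cos_sq x
  have h4 : Real.cos x ^ 2 = 1 - Real.sin x ^ 2 := by linarith
  rw [mul_pow, mul_pow, h2, h4]
  ring

lemma snb_norm_sin_sq (w : ℂ) :
    ‖(Complex.sin (Real.pi * w)) ^ 2‖ =
      (Real.sin (Real.pi * w.re)) ^ 2 + (Real.sinh (Real.pi * w.im)) ^ 2 := by
  have h : (Real.pi : ℂ) * w = ((Real.pi * w.re : ℝ) : ℂ) + ((Real.pi * w.im : ℝ) : ℂ) * I := by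
    conv_lhs => rw [← Complex.re_add_im w]
    push_cast; ring
  rw [norm_pow, ← Complex.normSq_eq_norm_sq, h, snb_normSq_sin]

lemma snb_sinh_sq_pos {y : ℝ} (h : y ≠ 0) : 0 < (Real.sinh (Real.pi * y)) ^ 2 := by
  apply sq_pos_of_ne_zero
  rw [Ne, Real.sinh_eq_zero]
  exact mul_ne_zero Real.pi_ne_zero h

lemma snb_sinh_sq_abs (y : ℝ) : (Real.sinh y) ^ 2 = (Real.sinh |y|) ^ 2 := by
  rcases abs_choice y with h | h <;> rw [h]
  rw [Real.sinh_neg]; ring

lemma snb_exp_pi : 9 ≤ Real.exp Real.pi := by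
  have h1 : Real.exp 3 ≤ Real.exp Real.pi := Real.exp_le_exp.2 Real.pi_gt_three.le
  have h2 : (2.7 : ℝ) < Real.exp 1 := by
    have := Real.exp_one_gt_d9; linarith
  have h3 : Real.exp 3 = (Real.exp 1) ^ 3 := by
    rw [← Real.exp_nat_mul]; norm_num
  have h4 : (2.7 : ℝ) ^ 3 ≤ (Real.exp 1) ^ 3 := pow_le_pow_left₀ (by norm_num) h2.le 3
  rw [h3] at h1
  norm_num at h4 ⊢
  linarith

theorem snb : SnbStmt := by
  intro w hw
  have hpos := snb_sinh_sq_pos hw
  have h1 : ‖(Real.pi : ℂ) ^ 2 / (Complex.sin (Real.pi * w)) ^ 2‖ ≤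
      Real.pi ^ 2 / (Real.sinh (Real.pi * w.im)) ^ 2 := by
    rw [norm_div, snb_norm_sin_sq]
    have h2 : ‖(Real.pi : ℂ) ^ 2‖ = Real.pi ^ 2 := by
      rw [norm_pow, Complex.norm_real, Real.norm_eq_abs, abs_of_pos Real.pi_pos]
    rw [h2]
    apply div_le_div_of_nonneg_left (by positivity) hpos
    have := sq_nonneg (Real.sin (Real.pi * w.re))
    linarith
  refine ⟨h1, fun h => h1.trans ?_⟩
  rw [snb_sinh_sq_abs, abs_mul, abs_of_pos Real.pi_pos]
  set y := |w.im| with hy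
  have hy0 : 0 < y := by linarith
  rw [div_le_iff₀ (by
    apply sq_pos_of_ne_zero
    rw [Ne, Real.sinh_eq_zero]
    exact (mul_pos Real.pi_pos hy0).ne')]
  rw [Real.sinh_eq]
  -- t = exp (-2 π y)
  set t := Real.exp (-2 * Real.pi * y) with ht
  have e1 : Real.exp (Real.pi * y) ^ 2 * t = 1 := by
    rw [ht, ← Real.exp_nat_mul, ← Real.exp_add]
    have : ((2 : ℕ) : ℝ) * (Real.pi * y) + -2 * Real.pi * y = 0 := by push_cast; ring
    rw [this, Real.exp_zero]
  have e2 : Real.exp (-(Real.pi * y)) = Real.exp (Real.pi * y) * t := by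
    rw [ht, ← Real.exp_add]; congr 1; ring
  have e3 : t * 9 ≤ 1 := by
    have h3 : t ≤ Real.exp (-Real.pi) := by
      rw [ht]; apply Real.exp_le_exp.2
      nlinarith [Real.pi_pos]
    have h4 : Real.exp (-Real.pi) * Real.exp Real.pi = 1 := by
      rw [← Real.exp_add]; simp
    have h5 := snb_exp_pi
    have h6 : 0 < Real.exp (-Real.pi) := Real.exp_pos _
    nlinarith
  have t0 : 0 < t := Real.exp_pos _
  rw [e2]
  have e4 : 50 * t * ((Real.exp (Real.pi * y) - Real.exp (Real.pi * y) * t) / 2) ^ 2 =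
      50 / 4 * (Real.exp (Real.pi * y) ^ 2 * t) * (1 - t) ^ 2 := by ring
  rw [e4, e1]
  have hpi : Real.pi ^ 2 ≤ 9.87 := by
    have := Real.pi_lt_d4
    have h0 := Real.pi_pos
    nlinarith
  nlinarith

end Pool.Agent.H63.TC
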